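import Pool.Agent.Helper45.UC.Ende
import Pool.Agent.Helper13.AM.Blk
import Pool.Agent.Helper96.UQR.Cor

/-! ALL DIMENSIONS, level of the exact calculus: a flat corner does not exist (section 4 of CORNERm), from theorem W for
vectors. -/

set_option autoImplicit false

namespace Pool.Agent.Helper45.UC

open Filter Topology Pool.Agent.Helper69.RK
open Pool.Agent.Helper31.EC QS Sp Pool.Agent.Helper38.NS
open Pool.Agent.Helper13.AM (CD Tri FlatH Cls PR ST_UQC ST_WVQ)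
open Pool.Agent.Helper50.VR (UR Po Tp FlD exists_flD)

noncomputable section

/-- one is not small -/
theorem one_notMem {T : Sp} {κ : ℝ} (κ0 : 0 < κ) (κ1 : κ ≤ 1) : (1 : QS T) ∉ Id T κ := by
  intro h
  rw [← dQ_eq_zero κ κ0 κ1, map_one] at h
  exact one_ne_zero h

/-- a real triangular coordinate is not a real polynomial of the base point -/
theorem nr_false {T V S : Sp} {d N r : ℕ} {w : Fin N → ℝ} {c : CD S d N r}
    {H : Fin N → MvPolynomial (Fin (d + 1) ⊕ Fin N) (QS S)} (hT : Tri w H) (p : Pj V S) (e : Ev T V) {κ : ℝ}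
    (κ0 : 0 < κ) (κ1 : κ ≤ 1)
    (hN : ∀ D, Pool.Agent.Helper5.DO.NR D (((c.pull p).rest e.E e.hE).pull e.q).pt ⊥ κ) (n : Fin N)
    (F : MvPolynomial (Fin (d + 1)) (QS T)) (hF : F ∈ PK ⊥)
    (h : e.r (p.qs (c.cR H n)) - MvPolynomial.eval (fun j => e.r (p.qs (c.q j))) F ∈ Id T κ) : False := by
  classical
  obtain ⟨H', hH'⟩ : ∃ H' : MvPolynomial (Fin (d + 1) ⊕ Fin N) (QS T),
    H' = MvPolynomial.map e.r (MvPolynomial.map p.qs (H n)) := ⟨_, rfl⟩
  have hpt : (((c.pull p).rest e.E e.hE).pull e.q).pt = fun a => e.r (p.qs (c.pt a)) := by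
    funext a
    rcases a with a | a <;> rfl
  have hH'm : H' ∈ PK (⊥ : T.L) := by
    have h1 := e.r_PK (map_PK p (hT.real n))
    rw [Pj.map_bot, e.m_bot] at h1
    rw [hH']
    exact h1
  have key := hN _ (MvPolynomial.X (Sum.inr n) - H' - MvPolynomial.rename Sum.inl F) le_rfl
    ((PK _).sub_mem ((PK _).sub_mem (X_mem _ _) hH'm) (rename_mem _ hF))
    (by
      rw [hpt, map_sub, map_sub, MvPolynomial.eval_X, MvPolynomial.eval_rename, hH', ← e.r_eval, ← qs_eval]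
      have h1 : e.r (p.qs (c.cR H n)) = e.r (p.qs (c.pt (Sum.inr n))) -
          e.r (p.qs (MvPolynomial.eval (fun i => c.pt i) (H n))) := by
        rw [← map_sub, ← map_sub]
        rfl
      rw [h1] at h
      exact h)
    (Finsupp.single (Sum.inr n) 1)
  rw [MvPolynomial.coeff_sub, MvPolynomial.coeff_sub, MvPolynomial.coeff_X] at key
  have h1 : MvPolynomial.coeff (Finsupp.single (Sum.inr n) 1) H' = 0 := by
    rw [hH', MvPolynomial.coeff_map, MvPolynomial.coeff_map]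
    have h2 : MvPolynomial.coeff (Finsupp.single (Sum.inr n) 1) (H n) = 0 := by
      by_contra hc
      have h3 := hT.low n _ hc n (by rw [Finsupp.single_eq_same]; exact one_ne_zero)
      exact lt_irrefl _ h3
    rw [h2, map_zero, map_zero]
  have h2 : MvPolynomial.coeff (Finsupp.single (Sum.inr n : Fin (d + 1) ⊕ Fin N) 1) (MvPolynomial.rename Sum.inl F) =
      0 := by
    apply MvPolynomial.coeff_rename_eq_zero
    intro u hu
    exfalso
    have h3 := DFunLike.congr_fun hu (Sum.inr n)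
    rw [Finsupp.mapDomain_of_notMem_range _ _ (by rintro ⟨a, ha⟩; cases ha), Finsupp.single_eq_same] at h3
    exact zero_ne_one h3
  rw [h1, h2, sub_zero, sub_zero, if_pos rfl] at key
  exact one_notMem κ0 κ1 key

/-- [UQC] A FLAT CORNER DOES NOT EXIST, from theorem W for vectors -/
theorem uqc_of (hW : ST_WVQ) : ST_UQC := by
  intro d N r w z ρ C _ hC hP hN S c κ hc κ0 κ1 hfl
  obtain ⟨H, hT, hf⟩ := hfl
  have hax := hC.ax S c hc
  obtain ⟨k, P, σ, hk, hF⟩ := exists_flD c hax.ln hT.real κ0.le κ1 hf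
  have hur := Pool.Agent.Helper96.UQR.ur_flD hC hP hc hT κ1 hF
  rw [P.vd_q] at hur
  obtain ⟨θ, θ0, θ1, hWV⟩ := hW N ρ hax.rho0 hax.rho1
  have hr : Nonempty (Fin r) := ⟨⟨0, Pool.Agent.Helper96.UQR.r_pos hax⟩⟩
  have hq : Rl P.q ⊥ := by
    rw [hF.q]
    exact hax.ln.real
  obtain ⟨V, p, T, e, F, hF1, hF2⟩ := end_ev hk z.pos κ0 κ1 (fun i => hF.tp i) hq θ0 θ1 hax.rho0 hax.rho1 hWV hur
    (nlc_mono (Pool.Agent.Helper96.UQR.nlc_cor hax) hF.pO hF.xi)
  have ρ0 := hax.rho0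
  have ρ1 := hax.rho1
  have g0 : 0 < κ * θ * ρ := mul_pos (mul_pos κ0 θ0) ρ0
  have g1 : κ * θ * ρ ≤ κ := by
    have h1 : θ * ρ ≤ 1 := by nlinarith
    have h2 := mul_le_mul_of_nonneg_left h1 κ0.le
    rw [mul_one, ← mul_assoc] at h2
    exact h2
  have g2 : κ * θ * ρ ≤ 1 := g1.trans κ1
  refine nr_false hT p e g0 g2 (fun D => hN _ _ (hC.pull _ _ (hC.rest _ _ (hC.pull S c hc V p) e.E e.hE) T e.q) D _
    g0 g2) z (F z) (hF1 z) ?_
  have h1 := hF2 z
  rw [hF.q] at h1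
  have h2 : e.r (p.qs (c.cR H z)) - e.r (p.qs (P.z z)) ∈ Id T (κ * θ * ρ) := by
    rw [← map_sub, ← map_sub]
    exact e.r_mem g2 ((p.qs_mem_Id g2).mpr (Id_anti g1 (hF.z z)))
  have h3 := (Id T (κ * θ * ρ)).add_mem h2 h1
  refine Eq.subst (motive := fun x => x ∈ Id T (κ * θ * ρ)) ?_ h3
  ring

end

end Pool.Agent.Helper45.UC
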