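import Pool.Agent.Helper45.UC.Ende
import Pool.Agent.Helper50.VR.Flt
import Pool.Agent.Helper79.HLD.Cof
import Pool.Agent.Helper96.UQR.Cor

/-! (STAR) on an event: functions known to the base point which are weakly polynomial along the lines of all types are,
on an extension of an event, polynomials of the base point with coefficients of rate zero. -/

set_option autoImplicit false

namespace Pool.Agent.Helper45.UC

open Filter Topology Pool.Agent.Helper69.RK
open Pool.Agent.Helper31.EC QS Sp Pool.Agent.Helper38.NS Pool.Agent.Helper99.EC Pool.Agent.Helper96.FLT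
open Pool.Agent.Helper50.VC (poly_slopeT)
open Pool.Agent.Helper50.VM (sub_star eval_congr)
open Pool.Agent.Helper57.TA (WPol)

noncomputable section

/-- polynomial functions of degree at most `K` over deeper lines -/
theorem wpol_visK {S : Sp} {b : S.L} {t a : QS S} {r : ℝ} (h0 : 0 ≤ r) (h1 : r ≤ 1) {K : ℕ}
    (ha : ∃ α : Fin (K + 1) → QS S, (∀ j, dg (α j) 1 ≤ b) ∧ a - pe α t ∈ Id S r) {J : Type}
    [Fintype J] (f : J → QS S) (hf : vd f 1 ≤ b) (ht : h (dg t 1) b = 1) (hk : dg a r ≤ vd f 1 ⊔ dg t 1) :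
    ∃ α : Fin (K + 1) → QS S, (∀ j, dg (α j) 1 ≤ vd f 1) ∧ a - pe α t ∈ Id S r := by
  obtain ⟨α, hα, hz⟩ := ha
  have hαb : vd α 1 ⊔ vd f 1 ≤ b := by
    apply sup_le _ hf
    rw [vd_le]
    exact hα
  have h2 : h (dg t 1) (vd α 1 ⊔ vd f 1) = 1 := by
    apply le_antisymm (h_dg_le_one _ _)
    exact ht.ge.trans (h_anti hαb)
  have h3 : dg (pe α t) r ≤ vd f 1 ⊔ dg t 1 := by
    rw [← dg_eq_of_sub_mem hz le_rfl h1]
    exact hk
  have h4 := fun l => Pool.Agent.Helper79.HLD.coef_known α t f h2 h1 h3 l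
  have h5 := fun l => exists_rd (α l) h0 h1
  choose β β1 β2 using h5
  refine ⟨β, fun j => (β2 j).le.trans (h4 j), ?_⟩
  have h6 : pe α t - pe β t ∈ Id S r := by
    unfold pe
    rw [← Finset.sum_sub_distrib]
    apply (Id S r).sum_mem
    intro l _
    rw [← sub_mul]
    exact (Id S r).mul_mem_right _ (β1 l)
  have h7 := (Id S r).add_mem hz h6
  refine Eq.subst (motive := fun x => x ∈ Id S r) ?_ h7
  ring

/-- weakly polynomial functions over deeper lines -/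
theorem wpol_vis {S : Sp} {b : S.L} {t a : QS S} {r : ℝ} (h0 : 0 ≤ r) (h1 : r ≤ 1) (ha : WPol b t a r) {J : Type}
    [Fintype J] (f : J → QS S) (hf : vd f 1 ≤ b) (ht : h (dg t 1) b = 1) (hk : dg a r ≤ vd f 1 ⊔ dg t 1) :
    WPol (vd f 1) t a r := by
  obtain ⟨k, h2⟩ := ha
  exact ⟨k, wpol_visK h0 h1 h2 f hf ht hk⟩

/-- the degree of a real polynomial is the degree of a polynomial with the same values -/
theorem trim {T : Sp} {D : ℕ} {q : Fin D → QS T} {X : T.L} (hq : Rl q X) {κ : ℝ} (κ0 : 0 < κ) (κ1 : κ ≤ 1)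
    {P G : MvPolynomial (Fin D) (QS T)} (hP : P ∈ PK X) (hG : G ∈ PK ⊥)
    (h : MvPolynomial.eval q P - MvPolynomial.eval q G ∈ Id T κ) :
    ∃ G' : MvPolynomial (Fin D) (QS T), G' ∈ PK ⊥ ∧ G'.totalDegree ≤ P.totalDegree ∧
      MvPolynomial.eval q G - MvPolynomial.eval q G' ∈ Id T κ := by
  classical
  have hco : ∀ m, (∑ m ∈ P.support, MvPolynomial.monomial m (G.coeff m)).coeff m =
      if m ∈ P.support then G.coeff m else 0 := by
    intro m
    rw [MvPolynomial.coeff_sum]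
    simp only [MvPolynomial.coeff_monomial]
    rw [Finset.sum_ite_eq']
  have hPG : ∀ m, P.coeff m - G.coeff m ∈ Id T κ := by
    intro m
    rw [← dQ_eq_zero κ κ0 κ1, map_sub, sub_eq_zero, map_eval', map_eval'] at h
    have c5 := mv_unique (dL κ κ0 X) _ _ _ (rl_dp hq κ κ0 κ1) (map_dQ_PK hP κ κ0 κ1)
      (map_dQ_PK (PK_mono bot_le hG) κ κ0 κ1) h
    have c6 := congrArg (MvPolynomial.coeff m) c5
    rw [MvPolynomial.coeff_map, MvPolynomial.coeff_map, ← sub_eq_zero, ← map_sub, dQ_eq_zero] at c6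
    exact c6
  refine ⟨∑ m ∈ P.support, MvPolynomial.monomial m (G.coeff m), fun m => ?_, ?_, ?_⟩
  · rw [hco]
    by_cases hm : m ∈ P.support
    · rw [if_pos hm]
      exact hG m
    · rw [if_neg hm]
      exact (Kn T 1 le_rfl ⊥).zero_mem
  · unfold MvPolynomial.totalDegree
    apply Finset.sup_mono
    intro m hm
    rw [MvPolynomial.mem_support_iff, hco] at hm
    by_contra hc
    rw [if_neg hc] at hm
    exact hm rfl
  · exact eval_congr (Id T κ) _ _ q (fun m => by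
      rw [hco]
      by_cases hm : m ∈ P.support
      · rw [if_pos hm, sub_self]
        exact (Id T κ).zero_mem
      · rw [if_neg hm, sub_zero]
        have h1 := (Id T κ).neg_mem (hPG m)
        rw [MvPolynomial.notMem_support_iff.mp hm, zero_sub, neg_neg] at h1
        exact h1)

/-- STAR ON AN EVENT, with the degree -/
theorem star_evD {S : Sp} {d : ℕ} {ι : Type} [Fintype ι] [Nonempty ι] {O : S.L} {ξ B : ι → S.L}
    (hL : Pool.Agent.Helper10.JET.NLC O ξ) {q : Fin (d + 1) → QS S} (hq : vd q 1 ≤ O) (hR : Rl q ⊥)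
    {u f : ι → Fin (d + 1) → QS S} (u0 : ∀ i, u i 0 = 1) (he : ∀ i a, q a = f i a + q 0 * u i a)
    (hf : ∀ i, vd (f i) 1 ≤ ξ i) (r1 : ∀ i, I (vd (u i) 1) O ⊥ = 0) (hB : ∀ i, vd (f i) 1 ⊔ vd (u i) 1 ≤ B i)
    (ht : ∀ i, h (dg (q 0) 1) (B i) = 1) {ν : Type} [Fintype ν] (a : ν → QS S) (ha : ∀ k, dg (a k) 1 ≤ vd q 1)
    {r : ℝ} (r0 : 0 < r) (r1' : r ≤ 1) {K : ℕ} (hw : ∀ i k, ∃ α : Fin (K + 1) → QS S, (∀ j, dg (α j) 1 ≤ B i) ∧
      a k - pe α (q 0) ∈ Id S r) :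
    ∃ (V : Sp) (p : Pj V S) (T : Sp) (e : Ev T V) (Θ : ν → MvPolynomial (Fin (d + 1)) (QS T)), (∀ k, Θ k ∈ PK ⊥) ∧
      (∀ k, (Θ k).totalDegree ≤ K * (d + 1)) ∧
      ∀ k, e.r (p.qs (a k)) - MvPolynomial.eval (fun j => e.r (p.qs (q j))) (Θ k) ∈ Id T r := by
  classical
  -- visible lines
  have hfu : ∀ i, vd (Sum.elim (f i) (u i)) 1 = vd (f i) 1 ⊔ vd (u i) 1 := fun i => vd_sum _ _ _
  have hqfu : ∀ i, vd q 1 ≤ vd (f i) 1 ⊔ vd (u i) 1 ⊔ dg (q 0) 1 := by
    intro i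
    rw [vd_le]
    intro j
    rw [he i j]
    apply (Kn S 1 le_rfl _).add_mem
    · exact (dg_le_vd (f i) 1 j).trans (le_sup_left.trans le_sup_left)
    · apply (Kn S 1 le_rfl _).mul_mem
      · rw [mem_Kn]
        exact le_sup_right
      · exact (dg_le_vd (u i) 1 j).trans (le_sup_right.trans le_sup_left)
  have hw' : ∀ i k, ∃ α : Fin (K + 1) → QS S, (∀ j, dg (α j) 1 ≤ vd (f i) 1 ⊔ vd (u i) 1) ∧
      a k - pe α (q 0) ∈ Id S r := by
    intro i k
    have h1 := wpol_visK r0.le r1' (hw i k) (Sum.elim (f i) (u i)) (by rw [hfu]; exact hB i) (ht i)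
      (by
        rw [hfu]
        exact (dg_mono _ r1').trans ((ha k).trans (hqfu i)))
    rw [hfu] at h1
    exact h1
  -- the star
  obtain ⟨F, hF⟩ : ∃ F : Fin (d + 1) ⊕ ν → QS S, F = Sum.elim q a := ⟨_, rfl⟩
  have hFq : vd F 1 ≤ vd q 1 := by
    rw [hF, vd_sum]
    apply sup_le le_rfl
    rw [vd_le]
    exact ha
  have hFO : vd F 1 ≤ O := hFq.trans hq
  have hFl : ∀ j, F (Sum.inl j) = q j := fun j => by rw [hF]; rfl
  have hFr : ∀ k, F (Sum.inr k) = a k := fun k => by rw [hF]; rfl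
  obtain ⟨C⟩ := exists_CQ F d
  obtain ⟨il, E, hE, hdet⟩ := Pool.Agent.Helper10.JET.span_copies hL (q := q) (t := q 0) (u := u) (ft := f) hq hR he hf
    r1 (F := F) hFO C
  have hst : IsStar F C.p := ⟨fun i j b => C.com i j b, fun i0 A => by rw [C.p_vd i0 1]; exact C.ind A⟩
  obtain ⟨e0, he0⟩ : ∃ e0 : Ev (C.W.rest E) C.W, e0 = ⟨E, hE, Pj.id _⟩ := ⟨_, rfl⟩
  -- directions
  obtain ⟨G, hG⟩ : ∃ G : Fin (d + 1) × Fin (d + 1) → QS (C.W.rest E), G = fun x => e0.r ((C.p x.1).qs (u (il x.1) x.2)) :=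
    ⟨_, rfl⟩
  obtain ⟨D, hD⟩ : ∃ D : C.W.L, D = Finset.univ.sup fun l => (C.p l).map (vd (u (il l)) 1) := ⟨_, rfl⟩
  have hGD : vd G 1 = e0.m D := by
    have h1 : vd (fun x : Fin (d + 1) × Fin (d + 1) => (C.p x.1).qs (u (il x.1) x.2)) 1 = D := by
      rw [hD]
      apply le_antisymm
      · rw [vd_le]
        intro x
        refine le_trans ?_ (Finset.le_sup (f := fun l => (C.p l).map (vd (u (il l)) 1)) (Finset.mem_univ x.1))
        rw [← (C.p x.1).qs_vd]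
        exact dg_le_vd (fun j => (C.p x.1).qs (u (il x.1) j)) 1 x.2
      · apply Finset.sup_le
        intro l _
        rw [← (C.p l).qs_vd, vd_le]
        intro j
        exact dg_le_vd (fun x : Fin (d + 1) × Fin (d + 1) => (C.p x.1).qs (u (il x.1) x.2)) 1 (l, j)
    rw [hG, e0.r_vd, h1]
  have hDI : ∀ l, I D ((C.p l).map (vd F 1)) ⊥ = 0 := by
    intro l
    rw [hD]
    exact hst.I_free l (fun l => vd (u (il l)) 1) fun i => I_zero_mono (r1 (il i)) le_sup_left (hFO.trans le_sup_left)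
  have hDI' : ∀ l, I (e0.m D) (e0.m ((C.p l).map (vd F 1))) ⊥ = 0 := by
    intro l
    have h1 := e0.I_zero (hDI l)
    rw [e0.m_bot] at h1
    exact h1
  obtain ⟨q', hq'⟩ : ∃ q' : Fin (d + 1) → QS (C.W.rest E), q' = fun j => e0.r ((C.p 0).qs (q j)) := ⟨_, rfl⟩
  have hq'l : ∀ l j, e0.r ((C.p l).qs (q j)) = q' j := by
    intro l j
    rw [hq']
    have h1 := hst.com l 0 (Sum.inl j)
    rw [hFl] at h1
    exact congrArg e0.r h1
  have hal : ∀ l k, e0.r ((C.p l).qs (a k)) = e0.r ((C.p 0).qs (a k)) := by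
    intro l k
    have h1 := hst.com l 0 (Sum.inr k)
    rw [hFr] at h1
    exact congrArg e0.r h1
  have hqv : vd q' 1 ≤ e0.m ((C.p 0).map (vd F 1)) := by
    rw [hq', e0.r_vd (fun j => (C.p 0).qs (q j)), (C.p 0).qs_vd]
    apply e0.m_mono
    apply (C.p 0).map_mono
    rw [hF, vd_sum]
    exact le_sup_left
  have hqR : Rl q' (vd G 1) := by
    have h1 : I (vd q' 1) (vd G 1) ⊥ = 0 := by
      rw [hGD, I_comm]
      exact I_zero_mono (hDI' 0) le_sup_left (hqv.trans le_sup_left)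
    have h2 := I_zero_iff_h.mp h1
    have h3 := e0.rl (hR.pull (C.p 0))
    rw [Pj.map_bot, e0.m_bot] at h3
    rw [hq'] at h2 ⊢
    unfold Rl at h3 ⊢
    rw [sup_bot_eq] at h2
    rw [h2]
    exact h3
  obtain ⟨M, hM⟩ : ∃ M : Matrix (Fin (d + 1)) (Fin (d + 1)) (QS (C.W.rest E)),
    M = Matrix.of fun l j => G (l, j) := ⟨_, rfl⟩
  have hMG : ∀ l j, M l j = G (l, j) := fun l j => by rw [hM]; rfl
  have hM0 : ∀ l, M l 0 = 1 := by
    intro l
    rw [hMG, hG]
    show e0.r ((C.p l).qs (u (il l) 0)) = 1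
    rw [u0, map_one, map_one]
  have hMd : IsUnit M.det := by
    have h1 : e0.r (Matrix.of fun l a => (C.p l).qs (u (il l) a)).det = M.det := by
      rw [e0.r_det, hM, hG]
      rfl
    rw [← h1, he0]
    show IsUnit ((Pj.id _).qs (QS.rest E hE _))
    rw [Pj.id_qs]
    exact hdet
  -- along the lines
  have hline : ∀ (l : Fin (d + 1)) (k : ν), ∃ (Φ : Fin (K + 1) → QS (C.W.rest E)),
      vd Φ 1 ≤ vd (fun j => q' j - q' 0 * M l j) 1 ⊔ vd G 1 ∧
      e0.r ((C.p 0).qs (a k)) - pe Φ (q' 0) ∈ Id (C.W.rest E) r := by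
    intro l k
    obtain ⟨α, h1, h2⟩ := hw' (il l) k
    refine ⟨fun j => e0.r ((C.p l).qs (α j)), ?_, ?_⟩
    · rw [vd_le]
      intro j
      rw [e0.r_dg, (C.p l).qs_dg]
      refine (e0.m_mono ((C.p l).map_mono (h1 j))).trans ?_
      rw [(C.p l).map_sup, e0.m_sup]
      have b1 : e0.m ((C.p l).map (vd (u (il l)) 1)) ≤ vd G 1 := by
        rw [hGD, hD]
        exact e0.m_mono (Finset.le_sup (f := fun l => (C.p l).map (vd (u (il l)) 1)) (Finset.mem_univ l))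
      have b2 : e0.m ((C.p l).map (vd (f (il l)) 1)) ≤ vd (fun j => q' j - q' 0 * M l j) 1 := by
        rw [← (C.p l).qs_vd, ← e0.r_vd, vd_le]
        intro j
        have b3 : e0.r ((C.p l).qs (f (il l) j)) = q' j - q' 0 * M l j := by
          have b4 : f (il l) j = q j - q 0 * u (il l) j := by
            rw [he (il l) j]
            ring
          rw [b4, map_sub, map_mul, map_sub, map_mul, hq'l, hq'l, hMG, hG]
        rw [b3]
        exact dg_le_vd (fun j => q' j - q' 0 * M l j) 1 j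
      exact sup_le (b2.trans le_sup_left) (b1.trans le_sup_right)
    · have h3 := e0.r_mem r1' (((C.p l).qs_mem_Id r1').mpr h2)
      rw [map_sub, map_sub, pe_map, e0.r_pe, hal, hq'l] at h3
      exact h3
  choose Φ hΦ1 hΦ2 using hline
  -- all functions are polynomials on an extension
  obtain ⟨T, t, hall⟩ := ext_all (Finset.univ : Finset ν)
    (fun k V' (t : Pj V' (C.W.rest E)) => ∃ P : MvPolynomial (Fin (d + 1)) (QS V'), P ∈ PK (t.map (vd G 1)) ∧
      P.totalDegree ≤ K * (d + 1) ∧ t.qs (e0.r ((C.p 0).qs (a k))) - MvPolynomial.eval (fun j => t.qs (q' j)) P ∈ Id V' r)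
    (fun k V' t V'' t' h => by
      obtain ⟨P, h1, h1', h2⟩ := h
      refine ⟨MvPolynomial.map t'.qs P, ?_, ?_, ?_⟩
      · rw [Pj.comp_map]
        exact map_PK t' h1
      · unfold MvPolynomial.totalDegree
        exact (Finset.sup_mono (MvPolynomial.support_map_subset _ _)).trans h1'
      · have b1 := (t'.qs_mem_Id r1').mpr h2
        rw [map_sub, qs_eval] at b1
        have e1 : (fun j => (t'.comp t).qs (q' j)) = fun j => t'.qs (t.qs (q' j)) :=
          funext fun j => Pj.comp_qs _ _ _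
        rw [Pj.comp_qs, e1]
        exact b1)
    (fun k V' t => by
      have e1 : vd (fun x => t.qs (G x)) 1 = t.map (vd G 1) := t.qs_vd G 1
      have e2 : ∀ l, vd (fun j => t.qs (q' j) - t.qs (q' 0) * (M.map t.qs) l j) 1 =
          t.map (vd (fun j => q' j - q' 0 * M l j) 1) := by
        intro l
        rw [← t.qs_vd]
        apply vd_congr
        intro j
        rw [map_sub, map_mul]
        rfl
      obtain ⟨V'', t', P, h1, hdg, h3⟩ := poly_slopeT r0.le r1' (K := K) (fun x => t.qs (G x)) (M.map t.qs)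
        (fun i j => by
          rw [Matrix.map_apply, hMG, t.qs_dg, e1]
          exact t.map_mono (dg_le_vd G 1 (i, j)))
        (fun i => by rw [Matrix.map_apply, hM0, map_one])
        (by
          have h := hMd.map t.qs
          rw [RingHom.map_det] at h
          exact h)
        (fun j => t.qs (q' j))
        (by
          rw [e1]
          exact hqR.pull t)
        (t.qs (e0.r ((C.p 0).qs (a k))))
        (by
          refine le_trans ?_ le_sup_left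
          rw [t.qs_dg, t.qs_vd]
          apply t.map_mono
          rw [e0.r_dg, (C.p 0).qs_dg, hq', e0.r_vd (fun j => (C.p 0).qs (q j)), (C.p 0).qs_vd]
          exact e0.m_mono ((C.p 0).map_mono (ha k)))
        (fun l => by
          have hb := hΦ1 l k
          refine ⟨fun j => t.qs (Φ l k j), ?_, ?_⟩
          · rw [← pe_map, ← map_sub, t.qs_mem_Id r1']
            exact hΦ2 l k
          · rw [e2, e1, ← t.map_sup, vd_le]
            intro j
            rw [t.qs_dg]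
            exact t.map_mono ((dg_le_vd (Φ l k) 1 _).trans hb))
      refine ⟨V'', t', P, ?_, hdg, ?_⟩
      · rw [Pj.comp_map, ← e1]
        exact h1
      · have e3 : (fun j => (t'.comp t).qs (q' j)) = fun j => t'.qs (t.qs (q' j)) :=
          funext fun j => Pj.comp_qs _ _ _
        rw [Pj.comp_qs, e3]
        exact h3)
  have hall' : ∀ k, ∃ P : MvPolynomial (Fin (d + 1)) (QS T), P ∈ PK (t.map (vd G 1)) ∧
      P.totalDegree ≤ K * (d + 1) ∧ t.qs (e0.r ((C.p 0).qs (a k))) - MvPolynomial.eval (fun j => t.qs (q' j)) P ∈ Id T r :=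
    fun k => hall k (Finset.mem_univ k)
  choose P hP1 hPd hP2 using hall'
  -- removal of the directions
  have her : ∀ x, t.qs (e0.r x) = (e0.comp t).r x := fun x => (e0.comp_r t x).symm
  have hem : ∀ x, t.map (e0.m x) = (e0.comp t).m x := fun x => (e0.comp_m t x).symm
  obtain ⟨Θ, h1, h2⟩ := rel_free (T := T) (q := fun j => t.qs (q' j))
    (z := fun k => t.qs (e0.r ((C.p 0).qs (a k)))) (X := t.map (vd G 1))
    (by
      rw [hGD, vd_sum]
      have b1 : vd (fun j => t.qs (q' j)) 1 ⊔ vd (fun k => t.qs (e0.r ((C.p 0).qs (a k)))) 1 ≤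
          t.map (e0.m ((C.p 0).map (vd F 1))) := by
        apply sup_le
        · rw [t.qs_vd]
          exact t.map_mono hqv
        · rw [t.qs_vd (fun k => e0.r ((C.p 0).qs (a k))), e0.r_vd (fun k => (C.p 0).qs (a k)), (C.p 0).qs_vd]
          apply t.map_mono
          apply e0.m_mono
          apply (C.p 0).map_mono
          rw [hF, vd_sum]
          exact le_sup_right
      have b2 := t.I_map (e0.m D) (e0.m ((C.p 0).map (vd F 1))) ⊥
      rw [hDI' 0, t.map_bot] at b2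
      exact I_zero_mono b2 le_sup_left (b1.trans le_sup_left))
    (by
      have b1 := (e0.rl (hR.pull (C.p 0))).pull t
      rw [Pj.map_bot, e0.m_bot, Pj.map_bot] at b1
      rw [hq']
      exact b1)
    r0 r1' P hP1 hP2
  have htr : ∀ k, ∃ G' : MvPolynomial (Fin (d + 1)) (QS T), G' ∈ PK ⊥ ∧ G'.totalDegree ≤ (P k).totalDegree ∧
      MvPolynomial.eval (fun j => t.qs (q' j)) (Θ k) - MvPolynomial.eval (fun j => t.qs (q' j)) G' ∈ Id T r :=
    fun k => trim (hqR.pull t) r0 r1' (hP1 k) (h1 k) (by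
      have b1 := (Id T r).sub_mem (h2 k) (hP2 k)
      refine Eq.subst (motive := fun x => x ∈ Id T r) ?_ b1
      ring)
  choose Θ' d1 d2 d3 using htr
  refine ⟨C.W, C.p 0, T, e0.comp t, Θ', d1, fun k => (d2 k).trans (hPd k), fun k => ?_⟩
  have h3 := (Id T r).add_mem (h2 k) (d3 k)
  have h4 : (fun j => t.qs (q' j)) = fun j => (e0.comp t).r ((C.p 0).qs (q j)) := by
    funext j
    rw [hq', ← her]
  rw [sub_add_sub_cancel, h4, her] at h3
  exact h3

/-- functions of degree at most `K` -/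
theorem wpol_le {S : Sp} {b : S.L} {t a : QS S} {r : ℝ} {k K : ℕ} (hk : k ≤ K)
    (h : ∃ α : Fin (k + 1) → QS S, (∀ j, dg (α j) 1 ≤ b) ∧ a - pe α t ∈ Id S r) :
    ∃ α : Fin (K + 1) → QS S, (∀ j, dg (α j) 1 ≤ b) ∧ a - pe α t ∈ Id S r := by
  obtain ⟨α, h1, h2⟩ := h
  obtain ⟨β, g0, g1, g2⟩ := Pool.Agent.Helper50.VR.exists_pad hk α b (fun l => h1 _)
  refine ⟨β, fun j => ?_, ?_⟩
  · induction j using Fin.cases with
    | zero =>
      rw [g0]
      exact h1 0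
    | succ j => exact g1 j
  · rw [g2]
    exact h2

/-- STAR ON AN EVENT -/
theorem star_ev {S : Sp} {d : ℕ} {ι : Type} [Fintype ι] [Nonempty ι] {O : S.L} {ξ B : ι → S.L}
    (hL : Pool.Agent.Helper10.JET.NLC O ξ) {q : Fin (d + 1) → QS S} (hq : vd q 1 ≤ O) (hR : Rl q ⊥)
    {u f : ι → Fin (d + 1) → QS S} (u0 : ∀ i, u i 0 = 1) (he : ∀ i a, q a = f i a + q 0 * u i a)
    (hf : ∀ i, vd (f i) 1 ≤ ξ i) (r1 : ∀ i, I (vd (u i) 1) O ⊥ = 0) (hB : ∀ i, vd (f i) 1 ⊔ vd (u i) 1 ≤ B i)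
    (ht : ∀ i, h (dg (q 0) 1) (B i) = 1) {ν : Type} [Fintype ν] (a : ν → QS S) (ha : ∀ k, dg (a k) 1 ≤ vd q 1)
    {r : ℝ} (r0 : 0 < r) (r1' : r ≤ 1) (hw : ∀ i k, WPol (B i) (q 0) (a k) r) :
    ∃ (V : Sp) (p : Pj V S) (T : Sp) (e : Ev T V) (Θ : ν → MvPolynomial (Fin (d + 1)) (QS T)), (∀ k, Θ k ∈ PK ⊥) ∧
      ∀ k, e.r (p.qs (a k)) - MvPolynomial.eval (fun j => e.r (p.qs (q j))) (Θ k) ∈ Id T r := by
  classical
  choose m hm using hw
  obtain ⟨K, hK⟩ : ∃ K : ℕ, K = Finset.univ.sup fun x : ι × ν => m x.1 x.2 := ⟨_, rfl⟩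
  have hmK : ∀ i k, m i k ≤ K := fun i k => by
    rw [hK]
    exact Finset.le_sup (f := fun x : ι × ν => m x.1 x.2) (Finset.mem_univ (i, k))
  obtain ⟨V, p, T, e, Θ, h1, -, h2⟩ := star_evD hL hq hR u0 he hf r1 hB ht a ha r0 r1' (K := K)
    fun i k => wpol_le (hmK i k) (hm i k)
  exact ⟨V, p, T, e, Θ, h1, h2⟩

open Pool.Agent.Helper13.AM (CD Cls) in
/-- STAR ON AN EVENT for corners, with the degree -/
theorem star_corD {S : Sp} {d N r : ℕ} {w : Fin N → ℝ} {z : Fin N} {ρ : ℝ} {c : CD S d N r} (hc : c.Ax w z ρ)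
    {B : Fin r → S.L} (hB : ∀ i, c.b i ≤ B i) (ht : ∀ i, h (dg (c.q 0) 1) (B i) = 1) {ν : Type} [Fintype ν]
    (a : ν → QS S) (ha : ∀ k, dg (a k) 1 ≤ vd c.q 1) {κ : ℝ} (κ0 : 0 < κ) (κ1 : κ ≤ 1) {K : ℕ}
    (hw : ∀ i k, ∃ α : Fin (K + 1) → QS S, (∀ j, dg (α j) 1 ≤ B i) ∧ a k - pe α (c.q 0) ∈ Id S κ) :
    ∃ (V : Sp) (p : Pj V S) (T : Sp) (e : Ev T V) (Θ : ν → MvPolynomial (Fin (d + 1)) (QS T)), (∀ k, Θ k ∈ PK ⊥) ∧
      (∀ k, (Θ k).totalDegree ≤ K * (d + 1)) ∧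
      ∀ k, e.r (p.qs (a k)) - MvPolynomial.eval (fun j => e.r (p.qs (c.q j))) (Θ k) ∈ Id T κ := by
  have hr : Nonempty (Fin r) := ⟨⟨0, Pool.Agent.Helper96.UQR.r_pos hc⟩⟩
  have hbx : ∀ i, c.b i ≤ c.xi i := fun i => by
    unfold CD.xi
    exact le_sup_left
  refine star_evD (Pool.Agent.Helper96.UQR.nlc_cor hc) (O := c.O) (ξ := c.xi) (u := c.u) (f := c.a)
    (le_sup_left : c.P ≤ c.O) hc.ln.real hc.ln.u0 (fun i j => hc.ln.line i j)
    (fun i => le_trans ?_ (hbx i)) (fun i => ?_) (fun i => ?_) ht a ha κ0 κ1 hw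
  · rw [hc.ln.gen]
    exact le_sup_left
  · have e1 : vd (c.u i) 1 ≤ Finset.univ.sup fun i => vd (c.u i) 1 :=
      Finset.le_sup (f := fun i => vd (c.u i) 1) (Finset.mem_univ i)
    exact I_zero_mono hc.ln.r1 (e1.trans le_sup_left) le_sup_left
  · rw [← hc.ln.gen]
    exact hB i

open Pool.Agent.Helper13.AM (CD Cls) in
/-- STAR ON AN EVENT for corners -/
theorem star_cor {S : Sp} {d N r : ℕ} {w : Fin N → ℝ} {z : Fin N} {ρ : ℝ} {c : CD S d N r} (hc : c.Ax w z ρ)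
    {B : Fin r → S.L} (hB : ∀ i, c.b i ≤ B i) (ht : ∀ i, h (dg (c.q 0) 1) (B i) = 1) {ν : Type} [Fintype ν]
    (a : ν → QS S) (ha : ∀ k, dg (a k) 1 ≤ vd c.q 1) {κ : ℝ} (κ0 : 0 < κ) (κ1 : κ ≤ 1)
    (hw : ∀ i k, WPol (B i) (c.q 0) (a k) κ) :
    ∃ (V : Sp) (p : Pj V S) (T : Sp) (e : Ev T V) (Θ : ν → MvPolynomial (Fin (d + 1)) (QS T)), (∀ k, Θ k ∈ PK ⊥) ∧
      ∀ k, e.r (p.qs (a k)) - MvPolynomial.eval (fun j => e.r (p.qs (c.q j))) (Θ k) ∈ Id T κ := by
  classical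
  choose m hm using hw
  obtain ⟨K, hK⟩ : ∃ K : ℕ, K = Finset.univ.sup fun x : Fin r × ν => m x.1 x.2 := ⟨_, rfl⟩
  have hmK : ∀ i k, m i k ≤ K := fun i k => by
    rw [hK]
    exact Finset.le_sup (f := fun x : Fin r × ν => m x.1 x.2) (Finset.mem_univ (i, k))
  obtain ⟨V, p, T, e, Θ, h1, -, h2⟩ := star_corD hc hB ht a ha κ0 κ1 (K := K)
    fun i k => wpol_le (hmK i k) (hm i k)
  exact ⟨V, p, T, e, Θ, h1, h2⟩

end

end Pool.Agent.Helper45.UC
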