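import Pool.Agent.Helper70.FW.Res
import Pool.Agent.Helper10.JET.Span
import Pool.Agent.Helper95.RIG.Rs

/-! Exact entropy calculus: extensions of events (`Ev T V`: an event of positive probability of `V` and an extension `T`
of the restricted space) with the maps of informations and functions; labels over independent informations on them. -/

set_option autoImplicit false

namespace Pool.Agent.Helper45.UC

open Filter Topology Pool.Agent.Helper69.RK
open Pool.Agent.Helper31.EC QS Sp Pool.Agent.Helper38.NS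

noncomputable section

/-- an extension of an event -/
structure Ev (T V : Sp) where
  E : ∀ k, (V.F k).Ω → Prop
  hE : 0 < ul (V.pr E)
  q : Pj T (V.rest E)

namespace Ev

variable {T V : Sp} (e : Ev T V)

/-- informations -/
def m (x : V.L) : T.L := e.q.map (restL e.E e.hE x)

/-- functions -/
def r : QS V →+* QS T := e.q.qs.comp (QS.rest e.E e.hE)

theorem r_apply (f : QS V) : e.r f = e.q.qs (QS.rest e.E e.hE f) := rfl

theorem m_sup (x y : V.L) : e.m (x ⊔ y) = e.m x ⊔ e.m y := by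
  unfold m
  rw [restL_sup, Pj.map_sup]

theorem m_mono {x y : V.L} (h : x ≤ y) : e.m x ≤ e.m y := e.q.map_mono (restL_mono e.E e.hE h)

theorem m_bot : e.m ⊥ = ⊥ := by
  unfold m
  rw [restL_bot, Pj.map_bot]

theorem m_finsup {ι : Type*} (s : Finset ι) (f : ι → V.L) : e.m (s.sup f) = s.sup fun i => e.m (f i) := by
  classical
  induction s using Finset.induction_on with
  | empty => exact e.m_bot
  | insert a s ha ih => rw [Finset.sup_insert, Finset.sup_insert, m_sup, ih]

theorem r_dg (f : QS V) (l : ℝ) : dg (e.r f) l = e.m (dg f l) := by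
  unfold m
  rw [r_apply, Pj.qs_dg, QS.rest_dg]

theorem r_vd {ι : Type} [Fintype ι] (f : ι → QS V) (l : ℝ) : vd (fun i => e.r (f i)) l = e.m (vd f l) := by
  unfold vd
  rw [m_finsup]
  congr 1
  funext i
  exact e.r_dg (f i) l

theorem r_mem {f : QS V} {l : ℝ} (hl : l ≤ 1) (h : f ∈ Id V l) : e.r f ∈ Id T l :=
  (e.q.qs_mem_Id hl).mpr (rest_mem_Id e.E e.hE hl h)

theorem I_zero {x y z : V.L} (h : I x y z = 0) : I (e.m x) (e.m y) (e.m z) = 0 := by
  unfold m
  rw [Pj.I_map]
  exact I_rest_zero e.E e.hE h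

theorem rl {ι : Type} [Fintype ι] {x : ι → QS V} {A : V.L} (h : Rl x A) : Rl (fun i => e.r (x i)) (e.m A) :=
  (h.rest e.E e.hE).pull e.q

theorem h_one {x : QS V} {A : V.L} (h1 : Helper31.EC.h (dg x 1) A = 1) :
    Helper31.EC.h (dg (e.r x) 1) (e.m A) = 1 := by
  rw [r_dg]
  unfold m
  rw [Pj.h_map, ← QS.rest_dg]
  exact Pool.Agent.Helper70.FW.real_rest e.E e.hE h1

theorem r_PK {σ : Type} {A : V.L} {P : MvPolynomial σ (QS V)} (h : P ∈ PK A) :
    MvPolynomial.map e.r P ∈ PK (e.m A) := by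
  intro n
  rw [MvPolynomial.coeff_map, r_dg]
  exact e.m_mono (h n)

theorem r_eval {σ : Type} (P : MvPolynomial σ (QS V)) (x : σ → QS V) :
    e.r (MvPolynomial.eval x P) = MvPolynomial.eval (fun i => e.r (x i)) (MvPolynomial.map e.r P) :=
  Pool.Agent.Helper95.RIG.eval_hom e.r P x

theorem r_pe {k : ℕ} (c : Fin (k + 1) → QS V) (x : QS V) : e.r (pe c x) = pe (fun i => e.r (c i)) (e.r x) := by
  unfold pe
  rw [map_sum]
  exact Finset.sum_congr rfl fun i _ => by rw [map_mul, map_pow]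

theorem r_det {n : Type} [Fintype n] [DecidableEq n] (M : Matrix n n (QS V)) :
    e.r M.det = (Matrix.of fun i j => e.r (M i j)).det := by
  rw [RingHom.map_det]
  rfl

/-- further extensions -/
def comp {T' : Sp} (s : Pj T' T) : Ev T' V := ⟨e.E, e.hE, s.comp e.q⟩

theorem comp_m {T' : Sp} (s : Pj T' T) (x : V.L) : (e.comp s).m x = s.map (e.m x) := Pj.comp_map _ _ _

theorem comp_r {T' : Sp} (s : Pj T' T) (f : QS V) : (e.comp s).r f = s.qs (e.r f) := Pj.comp_qs _ _ _

/-- extensions of the big space -/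
def up {V' : Sp} (t : Pj V' V) {E : ∀ k, (V.F k).Ω → Prop} (hE : 0 < ul (V.pr E)) :
    Ev (V'.rest fun k w => E k (t.π k w)) V' :=
  ⟨fun k w => E k (t.π k w), Pool.Agent.Helper95.RIG.pos_pull t hE, Pj.id _⟩

theorem up_r {V' : Sp} (t : Pj V' V) {E : ∀ k, (V.F k).Ω → Prop} (hE : 0 < ul (V.pr E)) (f : QS V) :
    (up t hE).r (t.qs f) = (Pool.Agent.Helper95.RIG.rsP t E).qs (QS.rest E hE f) := by
  rw [Pool.Agent.Helper95.RIG.rsP_qs]
  show (Pj.id _).qs _ = _
  rw [Pj.id_qs]
  rfl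

theorem up_unit {V' : Sp} (t : Pj V' V) {E : ∀ k, (V.F k).Ω → Prop} (hE : 0 < ul (V.pr E)) {f : QS V}
    (h : IsUnit (QS.rest E hE f)) : IsUnit ((up t hE).r (t.qs f)) := by
  rw [up_r]
  exact h.map _

end Ev

/-- restriction and projection -/
theorem gJ_map {S T : Sp} {E : ∀ k, (S.F k).Ω → Prop} (p : Pj T (S.rest E)) (hE : 0 < ul (S.pr E)) (x : S.L) :
    (Pool.Agent.Helper70.FW.gJ p).map (p.map (restL E hE x)) =
      restL (Pool.Agent.Helper70.FW.gD p) (Pool.Agent.Helper70.FW.gD_pos p hE)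
        ((Pool.Agent.Helper46.LIN.liftP p).map x) := by
  apply (Pool.Agent.Helper70.FW.gR p).map_injective
  rw [Pool.Agent.Helper70.FW.gR_gJ, Pool.Agent.Helper70.FW.gR_map p hE]

/-- NO LABELS over independent informations, on extensions of events -/
theorem nlc_ev {S : Sp} {ι : Type} {O : S.L} {ξ : ι → S.L} (hL : Pool.Agent.Helper10.JET.NLC O ξ) {V T : Sp}
    (p : Pj V S) (e : Ev T V) (X L : T.L) (hX : ∀ y : S.L, I X (e.m (p.map y)) ⊥ = 0)
    (hO : L ≤ e.m (p.map O) ⊔ X) (hξ : ∀ i, L ≤ e.m (p.map (ξ i)) ⊔ X) : L ≤ X := by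
  obtain ⟨E, hE, q⟩ := e
  have key : ∀ y : S.L, (Pool.Agent.Helper70.FW.gJ q).map (q.map (restL E hE (p.map y))) =
      restL (Pool.Agent.Helper70.FW.gD q) (Pool.Agent.Helper70.FW.gD_pos q hE)
        (((Pool.Agent.Helper46.LIN.liftP q).comp p).map y) := by
    intro y
    rw [gJ_map q hE, Pj.comp_map]
  have h1 := hL (Pool.Agent.Helper46.LIN.lift q) ((Pool.Agent.Helper46.LIN.liftP q).comp p)
    (Pool.Agent.Helper70.FW.gD q) (Pool.Agent.Helper70.FW.gD_pos q hE)
    ((Pool.Agent.Helper70.FW.gJ q).map X) ((Pool.Agent.Helper70.FW.gJ q).map L) (by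
      intro y
      have h2 := hX y
      rw [← key y, ← (Pool.Agent.Helper70.FW.gJ q).map_bot, Pj.I_map]
      exact h2) (by
      rw [← key O, ← Pj.map_sup]
      exact Pj.map_mono _ hO) (by
      intro i
      rw [← key (ξ i), ← Pj.map_sup]
      exact Pj.map_mono _ (hξ i))
  exact (Pool.Agent.Helper70.FW.gJ q).map_le.mp h1

/-- monotonicity -/
theorem nlc_mono {S : Sp} {ι : Type} {O O' : S.L} {ξ ξ' : ι → S.L} (hL : Pool.Agent.Helper10.JET.NLC O ξ)
    (hO : O' ≤ O) (hξ : ∀ i, ξ' i ≤ ξ i) : Pool.Agent.Helper10.JET.NLC O' ξ' := by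
  intro W p E hE X L hX h1 h2
  exact hL W p E hE X L hX (h1.trans (sup_le_sup_right (restL_mono E hE (p.map_mono hO)) _))
    fun i => (h2 i).trans (sup_le_sup_right (restL_mono E hE (p.map_mono (hξ i))) _)

end

end Pool.Agent.Helper45.UC
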