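import Pool.Agent.Helper45.UC.Str

/-! Exact entropy calculus: THE END for curved lines of several types, on events: without labels the top coordinates
are, on an extension of an event, polynomials of the base point with coefficients of rate zero, modulo `Id (r θ ρ)`. -/

set_option autoImplicit false

namespace Pool.Agent.Helper45.UC

open Filter Topology Pool.Agent.Helper69.RK
open Pool.Agent.Helper31.EC QS Sp Pool.Agent.Helper38.NS Pool.Agent.Helper99.EC Pool.Agent.Helper96.FLT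
open Pool.Agent.Helper50.VR (Po Tp UR H1R h1R)
open Pool.Agent.Helper50.VC (VB)
open Pool.Agent.Helper50.VM (drs vd_drs mat_le sub_star eval_congr)

noncomputable section

/-- coefficients over independent informations are free -/
theorem rel_free {T : Sp} {D : ℕ} {ν : Type} [Fintype ν] {q : Fin D → QS T} {z : ν → QS T} {X : T.L}
    (hX : I X (vd (Sum.elim q z) 1) ⊥ = 0) (hq : Rl q ⊥) {κ : ℝ} (κ0 : 0 < κ) (κ1 : κ ≤ 1)
    (F : ν → MvPolynomial (Fin D) (QS T)) (hF : ∀ n, F n ∈ PK X)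
    (h : ∀ n, z n - MvPolynomial.eval q (F n) ∈ Id T κ) :
    ∃ G : ν → MvPolynomial (Fin D) (QS T), (∀ n, G n ∈ PK ⊥) ∧
      ∀ n, z n - MvPolynomial.eval q (G n) ∈ Id T κ := by
  classical
  obtain ⟨R, a1, a2, hc, hI, -⟩ := exists_copyS (Sum.elim q z)
  have h2 := a1.I_map X (vd (Sum.elim q z) 1) ⊥
  rw [hX, a1.map_bot] at h2
  have hv : a2.map (vd (Sum.elim q z) 1) = a1.map (vd (Sum.elim q z) 1) := by
    rw [← a1.qs_vd, ← a2.qs_vd]
    exact (vd_congr hc 1).symm
  have h2' := a2.I_map X (vd (Sum.elim q z) 1) ⊥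
  rw [hX, a2.map_bot, hv] at h2'
  have h3 := ind_add h2 (hI X X) (by rw [sup_bot_eq])
  have h4 : I (a1.map X) (a2.map X) ⊥ = 0 := ind_of h3 le_rfl bot_le le_sup_left (by order)
  -- the point is independent of both
  have h5 : I (a1.map (vd (Sum.elim q z) 1)) (a1.map X ⊔ a2.map X) ⊥ = 0 := by
    have b1 : I (a1.map (vd (Sum.elim q z) 1)) (a2.map X) ⊥ = 0 := ind_symm h2'
    have b2 : I (a1.map (vd (Sum.elim q z) 1)) (a1.map X) (a2.map X) = 0 :=
      ind_symm (ind_of h3 bot_le (by order) le_sup_left (by order))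
    have b3 := ind_add b1 b2 (by rw [sup_bot_eq])
    rw [sup_comm (a1.map X)]
    exact b3
  have hqv : vd (fun j => a1.qs (q j)) 1 ≤ a1.map (vd (Sum.elim q z) 1) := by
    rw [a1.qs_vd]
    apply a1.map_mono
    rw [vd_le]
    intro j
    exact dg_le_vd (Sum.elim q z) 1 (Sum.inl j)
  have hxR : Rl (fun j => a1.qs (q j)) (a1.map X ⊔ a2.map X) := by
    have b1 : I (vd (fun j => a1.qs (q j)) 1) (a1.map X ⊔ a2.map X) ⊥ = 0 :=
      I_zero_mono h5 (hqv.trans le_sup_left) le_sup_left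
    have b2 := I_zero_iff_h.mp b1
    have b3 := hq.pull a1
    rw [a1.map_bot] at b3
    unfold Rl at b3 ⊢
    rw [sup_bot_eq] at b2
    rw [b2]
    exact b3
  have hcoef : ∀ n m, a1.qs ((F n).coeff m) - a2.qs ((F n).coeff m) ∈ Id R κ := by
    intro n m
    have c1 := (a1.qs_mem_Id κ1).mpr (h n)
    have c2 := (a2.qs_mem_Id κ1).mpr (h n)
    rw [map_sub, qs_eval] at c1 c2
    have e1 : (fun j => a2.qs (q j)) = fun j => a1.qs (q j) := funext fun j => (hc (Sum.inl j)).symm
    have e2 : a2.qs (z n) = a1.qs (z n) := (hc (Sum.inr n)).symm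
    rw [e1, e2] at c2
    have c3 := (Id R κ).sub_mem c2 c1
    have c4 : MvPolynomial.eval (fun j => a1.qs (q j)) (MvPolynomial.map a1.qs (F n)) -
        MvPolynomial.eval (fun j => a1.qs (q j)) (MvPolynomial.map a2.qs (F n)) ∈ Id R κ := by
      refine Eq.subst (motive := fun x => x ∈ Id R κ) ?_ c3
      ring
    rw [← dQ_eq_zero κ κ0 κ1, map_sub, sub_eq_zero, map_eval', map_eval'] at c4
    have c5 := mv_unique (dL κ κ0 (a1.map X ⊔ a2.map X)) _ _ _ (rl_dp hxR κ κ0 κ1)
      (map_dQ_PK (PK_mono le_sup_left (map_PK a1 (hF n))) κ κ0 κ1)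
      (map_dQ_PK (PK_mono le_sup_right (map_PK a2 (hF n))) κ κ0 κ1) c4
    have c6 := congrArg (MvPolynomial.coeff m) c5
    rw [MvPolynomial.coeff_map, MvPolynomial.coeff_map, MvPolynomial.coeff_map, MvPolynomial.coeff_map,
      ← sub_eq_zero, ← map_sub, dQ_eq_zero] at c6
    exact c6
  have hfree : ∀ n m, dg ((F n).coeff m) κ ≤ ⊥ := by
    intro n m
    have c1 : dg ((F n).coeff m) κ ≤ X := (dg_mono _ κ1).trans (hF n m)
    have c2 := dg_eq_of_sub_mem (hcoef n m) le_rfl κ1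
    rw [a1.qs_dg, a2.qs_dg] at c2
    have c3 : a1.map (dg ((F n).coeff m) κ) ≤ ⊥ := by
      refine le_of_markov (A := a1.map X) (B := a2.map X) ?_ ?_ h4
      · exact (a1.map_mono c1).trans le_sup_left
      · rw [c2]
        exact (a2.map_mono c1).trans le_sup_left
    rw [← a1.map_le, a1.map_bot]
    exact c3
  have hg : ∀ n m, ∃ g : QS T, (F n).coeff m - g ∈ Id T κ ∧ dg g 1 ≤ ⊥ := by
    intro n m
    obtain ⟨g, g1, g2⟩ := exists_rd ((F n).coeff m) κ0.le κ1
    exact ⟨g, g1, g2.le.trans (hfree n m)⟩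
  choose g g1 g2 using hg
  have hco : ∀ n m, (∑ m ∈ (F n).support, MvPolynomial.monomial m (g n m)).coeff m =
      if m ∈ (F n).support then g n m else 0 := by
    intro n m
    rw [MvPolynomial.coeff_sum]
    simp only [MvPolynomial.coeff_monomial]
    rw [Finset.sum_ite_eq']
  refine ⟨fun n => ∑ m ∈ (F n).support, MvPolynomial.monomial m (g n m), fun n m => ?_, fun n => ?_⟩
  · rw [hco]
    by_cases hm : m ∈ (F n).support
    · rw [if_pos hm]
      exact g2 n m
    · rw [if_neg hm]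
      exact (Kn T 1 le_rfl ⊥).zero_mem
  · have c1 := eval_congr (Id T κ) (F n) (∑ m ∈ (F n).support, MvPolynomial.monomial m (g n m)) q (fun m => by
      rw [hco]
      by_cases hm : m ∈ (F n).support
      · rw [if_pos hm]
        exact g1 n m
      · rw [if_neg hm, MvPolynomial.notMem_support_iff.mp hm, sub_zero]
        exact (Id T κ).zero_mem)
    have c2 := (Id T κ).add_mem (h n) c1
    refine Eq.subst (motive := fun x => x ∈ Id T κ) ?_ c2
    ring

variable {S : Sp} {d k N : ℕ} {P : Po S d N} {r : ℝ} {ι : Type}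

/-- THE END -/
theorem end_ev (hk : 0 < k) (hN : 0 < N) (r0 : 0 < r) (r1 : r ≤ 1) [Fintype ι] [Nonempty ι] {σ : ι → VB S d k N}
    (hs : ∀ i, Tp P r (σ i)) (hq : Rl P.q ⊥) {θ ρ : ℝ} (θ0 : 0 < θ) (θ1 : θ ≤ 1) (ρ0 : 0 < ρ) (ρ1 : ρ ≤ 1)
    (hW : WVQ N ρ θ) (hu : UR S P.z (P.iT ⊔ P.iY) ρ r)
    (hL : Pool.Agent.Helper10.JET.NLC P.iP fun i => (σ i).fv.iL ⊔ (σ i).fv.iB) :
    ∃ (V : Sp) (p : Pj V S) (T : Sp) (e : Ev T V) (F : Fin N → MvPolynomial (Fin (d + 1)) (QS T)),
      (∀ n, F n ∈ PK ⊥) ∧ ∀ n, e.r (p.qs (P.z n)) -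
        MvPolynomial.eval (fun j => e.r (p.qs (P.q j))) (F n) ∈ Id T (r * θ * ρ) := by
  classical
  obtain ⟨κ, hκ⟩ : ∃ κ, κ = r * θ := ⟨_, rfl⟩
  have κ0 : 0 < κ := by rw [hκ]; exact mul_pos r0 θ0
  have κr : κ ≤ r := by rw [hκ]; nlinarith
  have κ1 : κ ≤ 1 := κr.trans r1
  rw [← hκ]
  obtain ⟨κ', hκ'⟩ : ∃ κ', κ' = κ * ρ := ⟨_, rfl⟩
  have κ0' : 0 < κ' := by rw [hκ']; exact mul_pos κ0 ρ0
  have κ1' : κ' ≤ 1 := by rw [hκ']; nlinarith
  have hH : ∀ s s' : VB S d k N, Tp P r s → Tp P r s' → H1R P s s' κ := by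
    intro s s' h h'
    rw [hκ]
    exact h1R hk hN s s' h h' r0 r1 θ0 θ1 hW hu
  -- the star
  obtain ⟨W, p, hp⟩ := exists_isStar P.fQ (d + 1)
  have hpF := sub_star hp Fin.castSucc (Fin.castSucc_injective (d + 1))
  -- span
  obtain ⟨il, E, hE, hdet⟩ := Pool.Agent.Helper10.JET.span_copies hL (q := P.q) (t := P.t) (u := fun i => (σ i).v)
    (ft := fun i => (σ i).av) (by rw [← P.vd_fQ]; exact vd_q_le) hq
    (fun i a => by
      have h1 := (σ i).q_eq a
      rw [tp_q (hs i), (hs i).t] at h1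
      exact h1)
    (fun i => (vd_av _).trans (le_trans (le_sup_left : vd (σ i).a 1 ≤ (σ i).fv.iL) le_sup_left))
    (fun i => by
      have h1 : I (σ i).fv.iX P.iP ⊥ = 0 := (hs i).s1
      refine I_zero_mono h1 (le_trans ?_ le_sup_left) le_sup_left
      rw [vd_le]
      intro j
      induction j using Fin.cases with
      | zero => exact (Kn S 1 le_rfl _).one_mem
      | succ j => exact dg_le_vd (σ i).x 1 j)
    (F := P.fQ) P.vd_fQ.le ⟨W, fun l => p l.castSucc, fun i j a => hpF.com i j a, fun A => hpF.ind 0 A⟩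
  -- the star of the frame and of one more line
  obtain ⟨eo, heo⟩ : ∃ eo : Option (Fin (d + 1)) → Fin (d + 1 + 1),
    eo = fun o => o.elim (Fin.last (d + 1)) Fin.castSucc := ⟨_, rfl⟩
  have heo1 : ∀ l, eo (some l) = l.castSucc := fun l => by rw [heo]; rfl
  have heo2 : eo none = Fin.last (d + 1) := by rw [heo]; rfl
  have heoi : Function.Injective eo := by
    rintro (_ | a) (_ | b) hab
    · rfl
    · rw [heo1, heo2] at hab
      exact absurd hab.symm (Fin.castSucc_lt_last b).ne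
    · rw [heo1, heo2] at hab
      exact absurd hab (Fin.castSucc_lt_last a).ne
    · rw [heo1, heo1] at hab
      rw [Fin.castSucc_injective _ hab]
  have hpo := sub_star hp eo heoi
  obtain ⟨τy, hτy⟩ : ∃ τy : ι → Option (Fin (d + 1)) → VB S d k N,
    ∀ τ, τy τ none = σ τ ∧ ∀ l, τy τ (some l) = σ (il l) :=
    ⟨fun τ o => o.elim (σ τ) (fun l => σ (il l)), fun τ => ⟨rfl, fun l => rfl⟩⟩
  have hsy : ∀ τ o, Tp P r (τy τ o) := by
    rintro τ (_ | l)
    · rw [(hτy τ).1]
      exact hs τ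
    · rw [(hτy τ).2]
      exact hs _
  obtain ⟨V, t, hpr⟩ := ext_all (Finset.univ : Finset (ι × (Option (Fin (d + 1)) × Option (Fin (d + 1)))))
    (fun a V' (t : Pj V' W) => a.2.1 ≠ a.2.2 → Pr (τy a.1) κ (fun i => t.comp (p (eo i))) a.2.1 a.2.2)
    (fun a V' t V'' t' h hij => (h hij).up κ1 t')
    (fun a V' t => by
      by_cases hij : a.2.1 = a.2.2
      · exact ⟨V', Pj.id V', fun h => absurd hij h⟩
      · obtain ⟨V'', t', h⟩ := exists_pr (hsy a.1) (hpo.pull t) hij (hH _ _ (hsy _ _) (hsy _ _))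
        exact ⟨V'', t', fun _ => h⟩)
  have hstV := hpo.pull t
  obtain ⟨pV, hpV⟩ : ∃ pV : Option (Fin (d + 1)) → Pj V S, pV = fun i => t.comp (p (eo i)) := ⟨_, rfl⟩
  rw [← hpV] at hstV
  have hpr' : ∀ τ i j, i ≠ j → Pr (τy τ) κ pV i j := by
    intro τ i j hij
    rw [hpV]
    exact hpr (τ, (i, j)) (Finset.mem_univ _) hij
  -- lines as functions
  obtain ⟨X, hX⟩ : ∃ X : ι → LF V (Option (Fin (d + 1))) d k N, X = fun τ => ofStar P (τy τ) pV (pV none) := ⟨_, rfl⟩
  have hXok : ∀ τ, (X τ).Ok (vd (drs (τy τ) pV) 1) κ ρ := by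
    intro τ
    rw [hX]
    exact ok_star (hsy τ) κr r1 hq hu hstV (pV none) (fun i a => hstV.com i none a) none (hpr' τ)
  obtain ⟨XF, hXF⟩ : ∃ XF : LF V (Fin (d + 1)) d k N,
    XF = ofStar P (fun l => σ (il l)) (fun l => pV (some l)) (pV none) := ⟨_, rfl⟩
  have hstF := sub_star hstV some (Option.some_injective _)
  have hXFok : XF.Ok (vd (drs (fun l => σ (il l)) (fun l => pV (some l))) 1) κ ρ := by
    rw [hXF]
    obtain ⟨τ0⟩ := ‹Nonempty ι›
    refine ok_star (fun l => hs (il l)) κr r1 hq hu hstF (pV none) (fun i a => hstV.com (some i) none a) 0 ?_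
    intro i j hij
    obtain ⟨Ψ, a1, a2⟩ := hpr' τ0 (some i) (some j) (fun h => hij (Option.some_injective _ h))
    rw [(hτy τ0).2, (hτy τ0).2] at a1
    rw [(hτy τ0).2] at a2
    exact ⟨Ψ, a1, a2⟩
  obtain ⟨UF, hUF⟩ : ∃ UF, UF = vd (drs (fun l => σ (il l)) (fun l => pV (some l))) 1 := ⟨_, rfl⟩
  rw [← hUF] at hXFok
  -- the event
  have hE' : 0 < ul (V.pr fun k w => E k (t.π k w)) := Pool.Agent.Helper95.RIG.pos_pull t hE
  have hXFr := hXFok.rest κ1 _ hE'
  have hdetF : IsUnit ((XF.rest _ hE').frm id).det := by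
    have h1 := hdet.map (Pool.Agent.Helper95.RIG.rsP t E).qs
    rw [Pool.Agent.Helper95.RIG.rsP_qs, RingHom.map_det, RingHom.map_det] at h1
    have h2 : (QS.rest _ hE').mapMatrix (t.qs.mapMatrix (Matrix.of fun (l a : Fin (d + 1)) =>
        (p l.castSucc).qs ((σ (il l)).v a))) = (XF.rest _ hE').frm id := by
      ext l a
      rw [RingHom.mapMatrix_apply, Matrix.map_apply, RingHom.mapMatrix_apply, Matrix.map_apply, Matrix.of_apply, hXF]
      show _ = QS.rest _ hE' ((pV (some l)).qs ((σ (il l)).v a))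
      rw [hpV, Pj.comp_qs, heo1]
    rw [← h2]
    exact h1
  obtain ⟨T, t1, hf⟩ := hXFr.exists_pt κ0 κ1 ρ0 ρ1 id hdetF
  choose f hf using hf
  rw [← hκ'] at hf ⊢
  obtain ⟨e, he⟩ : ∃ e : Ev T V, e = ⟨_, hE', t1⟩ := ⟨_, rfl⟩
  have her : ∀ x : QS V, t1.qs (QS.rest _ hE' x) = e.r x := fun x => by rw [he]; rfl
  have hem : ∀ x : V.L, t1.map (restL _ hE' x) = e.m x := fun x => by rw [he]; rfl
  rw [hem] at hf
  obtain ⟨g, hg⟩ : ∃ g : Fin N → QS T, g = fun n => e.r ((pV none).qs (P.z n)) -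
    MvPolynomial.eval (fun j => e.r ((pV none).qs (P.q j))) (f n) := ⟨_, rfl⟩
  -- the directions of the frame are independent of the last line
  have hfree : ∀ y : S.L, I (e.m UF) (e.m ((pV none).map y)) ⊥ = 0 := by
    intro y
    have h1 := hstV.I_free_line none (s := Finset.univ.erase none) (Finset.notMem_erase none _)
      (fun o => o.elim ⊥ fun l => (σ (il l)).fv.iX)
      (fun o => by
        rcases o with _ | l
        · exact I_zero_of_le_left bot_le
        · rw [P.vd_fQ]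
          exact (hs (il l)).s1) y
    have h2 : UF ≤ (Finset.univ.erase none).sup fun i => (pV i).map (i.elim ⊥ fun l => (σ (il l)).fv.iX) := by
      rw [hUF, vd_drs]
      apply Finset.sup_le
      intro l _
      exact Finset.le_sup (f := fun i : Option (Fin (d + 1)) => (pV i).map (i.elim ⊥ fun l => (σ (il l)).fv.iX))
        (Finset.mem_erase.mpr ⟨Option.some_ne_none l, Finset.mem_univ _⟩)
    have h3 : I UF ((pV none).map y) ⊥ = 0 :=
      I_zero_mono h1 (h2.trans le_sup_left) (le_sup_right.trans le_sup_left)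
    have h4 := e.I_zero h3
    rw [e.m_bot] at h4
    exact h4
  -- the labels
  have hgO : ∀ n, dg (g n) κ' ≤ e.m ((pV none).map P.iP) ⊔ e.m UF := by
    intro n
    refine (dg_mono _ κ1').trans ?_
    rw [hg]
    apply (Kn T 1 le_rfl _).sub_mem
    · show dg (e.r ((pV none).qs (P.z n))) 1 ≤ _
      rw [e.r_dg, Pj.qs_dg]
      refine le_trans (e.m_mono (Pj.map_mono _ ?_)) le_sup_left
      rw [← P.vd_fQ]
      exact dg_le_vd P.fQ 1 (Sum.inr n)
    · refine eval_mem (hf n).mem _ le_sup_right fun j => ?_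
      rw [e.r_dg, Pj.qs_dg]
      refine le_trans (e.m_mono (Pj.map_mono _ ?_)) le_sup_left
      rw [← P.vd_fQ]
      exact dg_le_vd P.fQ 1 (Sum.inl j)
  have hgξ : ∀ n τ, dg (g n) κ' ≤ e.m ((pV none).map ((σ τ).fv.iL ⊔ (σ τ).fv.iB)) ⊔ e.m UF := by
    intro n τ
    have hY := ((hXok τ).rest κ1 _ hE').pull κ1 t1
    have hdY : IsUnit ((((X τ).rest _ hE').pull t1).frm some).det := by
      have h1 : ((X τ).rest _ hE').frm some = (XF.rest _ hE').frm id := by
        ext l a
        rw [hX, hXF]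
        show QS.rest _ hE' ((pV (some l)).qs ((τy τ (some l)).v a)) = QS.rest _ hE' ((pV (some l)).qs ((σ (il l)).v a))
        rw [(hτy τ).2]
      apply LF.frm_pull
      rw [h1]
      exact hdetF
    obtain ⟨T2, t2, hf'⟩ := hY.exists_pt κ0 κ1 ρ0 ρ1 some hdY
    obtain ⟨f', hf'⟩ := hf' n
    rw [← hκ'] at hf'
    have hUU : UF ≤ vd (drs (τy τ) pV) 1 := by
      rw [hUF, vd_le]
      intro a
      have h1 := dg_le_vd (drs (τy τ) pV) 1 (some a.1, a.2)
      have h2 : drs (τy τ) pV (some a.1, a.2) = drs (fun l => σ (il l)) (fun l => pV (some l)) a := by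
        show (pV (some a.1)).qs ((τy τ (some a.1)).x a.2) = (pV (some a.1)).qs ((σ (il a.1)).x a.2)
        rw [(hτy τ).2]
      rw [h2] at h1
      exact h1
    have hZ1 := (hXFr.pull κ1 t1).pull κ1 t2
    have hZ2 := hY.pull κ1 t2
    have hpt := (hf n).pull κ1' t2
    have huq := fun m => LF.pt_unique (X := ((XF.rest _ hE').pull t1).pull t2)
      (X' := (((X τ).rest _ hE').pull t1).pull t2) (U := t2.map (e.m UF))
      (by
        apply t2.map_mono
        rw [← hem]
        exact t1.map_mono (restL_mono _ _ hUU))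
      (by
        rw [← hem]
        exact hZ1) hZ2 some
      (by rw [hX, hXF]; rfl) (by rw [hX, hXF]; rfl)
      (fun l => by
        rw [hX, hXF]
        show (fun a => t2.qs (t1.qs (QS.rest _ hE' ((pV (some l)).qs ((τy τ (some l)).v a))))) = _
        rw [(hτy τ).2]
        rfl)
      (fun l => by
        rw [hX, hXF]
        show (fun n m => t2.qs (t1.qs (QS.rest _ hE' ((pV (some l)).qs ((τy τ (some l)).c n m))))) = _
        rw [(hτy τ).2]
        rfl)
      id (LF.frm_pull _ t2 (LF.frm_pull _ t1 hdetF)) κ0' κ1' hpt hf' m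
    -- the equation along the last line
    have hev := hf'.ev none
    have c1 := eval_congr (Id T2 κ') _ _ ((((X τ).rest _ hE').pull t1).pull t2).q huq
    have c2 := eval_congr (Id T2 κ') _ _ (((((X τ).rest _ hE').pull t1).pull t2).a none) huq
    have a0 : (X τ).a none = fun j => (pV none).qs ((σ τ).av j) := by
      rw [hX]
      have h1 := ofStar_a (hsy τ) (p := pV) (p0 := pV none) (fun i a => hstV.com i none a) none
      rw [(hτy τ).1] at h1
      exact h1
    have a1 : ((((X τ).rest _ hE').pull t1).pull t2).a none = fun j => t2.qs (e.r ((pV none).qs ((σ τ).av j))) := by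
      rw [LF.pull_a, LF.pull_a, LF.rest_a, a0]
      funext j
      beta_reduce
      rw [her]
    have a2 : ((((X τ).rest _ hE').pull t1).pull t2).q = fun j => t2.qs (e.r ((pV none).qs (P.q j))) := by
      funext j
      rw [← her, hX]
      rfl
    have a3 : ((((X τ).rest _ hE').pull t1).pull t2).z n = t2.qs (e.r ((pV none).qs (P.z n))) := by
      rw [← her, hX]
      rfl
    have a4 : ((((X τ).rest _ hE').pull t1).pull t2).c none n 0 = t2.qs (e.r ((pV none).qs ((σ τ).c n 0))) := by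
      rw [← her, hX]
      show t2.qs (t1.qs (QS.rest _ hE' ((pV none).qs ((τy τ none).c n 0)))) = _
      rw [(hτy τ).1]
    rw [a1, a2, a3, a4] at hev
    rw [a2] at c1
    rw [a1] at c2
    rw [← qs_eval] at c1 c2
    have c3 : t2.qs (g n - (e.r ((pV none).qs ((σ τ).c n 0)) - MvPolynomial.eval
        (fun j => e.r ((pV none).qs ((σ τ).av j))) (f n))) ∈ Id T2 κ' := by
      have c4 := (Id T2 κ').sub_mem hev ((Id T2 κ').sub_mem c1 c2)
      rw [hg]
      have c5 : ∀ x y z w : QS T, t2.qs (x - y - (z - w)) = t2.qs x - t2.qs y - (t2.qs z - t2.qs w) :=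
        fun x y z w => by rw [map_sub, map_sub, map_sub]
      rw [c5]
      refine Eq.subst (motive := fun x => x ∈ Id T2 κ') ?_ c4
      ring
    rw [t2.qs_mem_Id κ1'] at c3
    rw [dg_eq_of_sub_mem c3 le_rfl κ1']
    refine (dg_mono _ κ1').trans ?_
    apply (Kn T 1 le_rfl _).sub_mem
    · show dg (e.r ((pV none).qs ((σ τ).c n 0))) 1 ≤ _
      rw [e.r_dg, Pj.qs_dg]
      refine le_trans (e.m_mono (Pj.map_mono _ ?_)) le_sup_left
      exact (dg_le_vd (σ τ).fv.b 1 n).trans le_sup_right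
    · refine eval_mem (hf n).mem _ le_sup_right fun j => ?_
      rw [e.r_dg, Pj.qs_dg]
      refine le_trans (e.m_mono (Pj.map_mono _ ?_)) le_sup_left
      exact (dg_le_vd (σ τ).av 1 j).trans ((vd_av _).trans (le_trans
        (le_sup_left : vd (σ τ).a 1 ≤ (σ τ).fv.iL) le_sup_left))
  have hgX : ∀ n, dg (g n) κ' ≤ e.m UF := fun n =>
    nlc_ev hL (pV none) e (e.m UF) (dg (g n) κ') hfree (hgO n) (hgξ n)
  -- lifts
  have hG : ∀ n, ∃ G : QS T, g n - G ∈ Id T κ' ∧ dg G 1 ≤ e.m UF := by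
    intro n
    obtain ⟨G, G1, G2⟩ := exists_rd (g n) κ0'.le κ1'
    exact ⟨G, G1, G2.le.trans (hgX n)⟩
  choose G hG1 hG2 using hG
  obtain ⟨F, hF1, hF2⟩ := rel_free (T := T) (q := fun j => e.r ((pV none).qs (P.q j)))
    (z := fun n => e.r ((pV none).qs (P.z n))) (X := e.m UF)
    (by
      have h1 := hfree (vd P.fQ 1)
      rw [← (pV none).qs_vd, ← e.r_vd] at h1
      have h2 : (Sum.elim (fun j => e.r ((pV none).qs (P.q j))) fun n => e.r ((pV none).qs (P.z n))) =
          fun i => e.r ((pV none).qs (P.fQ i)) := by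
        funext i
        rcases i with i | i <;> rfl
      rw [h2]
      exact h1)
    (by
      have h1 := e.rl (hq.pull (pV none))
      rw [Pj.map_bot, e.m_bot] at h1
      exact h1)
    κ0' κ1' (fun n => f n + MvPolynomial.C (G n)) (fun n => (PK _).add_mem (hf n).mem (C_mem (hG2 n)))
    (fun n => by
      rw [map_add, MvPolynomial.eval_C]
      have h1 := hG1 n
      rw [hg] at h1
      refine Eq.subst (motive := fun x => x ∈ Id T κ') ?_ h1
      ring)
  exact ⟨V, pV none, T, e, F, hF1, hF2⟩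

end

end Pool.Agent.Helper45.UC
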