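import Pool.Agent.Helper50.VR.Hm
import Pool.Agent.Helper50.VM.End
import Pool.Agent.Helper38.NS.LoopR
import Pool.Agent.Helper38.NS.UrR
import Pool.Agent.Helper45.UC.Ev

/-! Exact entropy calculus: curved lines of several types through one point as functions on one space, the equation of
the top coordinates and the slopes hold modulo `Id κ`; extensions and events; slopes are polynomials. -/

set_option autoImplicit false

namespace Pool.Agent.Helper45.UC

open Filter Topology Pool.Agent.Helper69.RK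
open Pool.Agent.Helper31.EC QS Sp Pool.Agent.Helper38.NS Pool.Agent.Helper50.VR
open Pool.Agent.Helper50.VC (poly_slopeT)

noncomputable section

/-- curved lines through one point -/
structure LF (T : Sp) (ι : Type) (d k N : ℕ) where
  q : Fin (d + 1) → QS T
  z : Fin N → QS T
  v : ι → Fin (d + 1) → QS T
  c : ι → Fin N → Fin (k + 1) → QS T

namespace LF

variable {T : Sp} {ι : Type} {d k N : ℕ} (X : LF T ι d k N)

/-- foot of the base line -/
def a (i : ι) (j : Fin (d + 1)) : QS T := X.q j - X.q 0 * X.v i j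

/-- extension of the space -/
def pull {V : Sp} (r : Pj V T) : LF V ι d k N where
  q := fun j => r.qs (X.q j)
  z := fun n => r.qs (X.z n)
  v := fun i j => r.qs (X.v i j)
  c := fun i n m => r.qs (X.c i n m)

theorem pull_a {V : Sp} (r : Pj V T) (i : ι) : (X.pull r).a i = fun j => r.qs (X.a i j) := by
  funext j
  show r.qs (X.q j) - r.qs (X.q 0) * r.qs (X.v i j) = r.qs (X.q j - X.q 0 * X.v i j)
  rw [map_sub, map_mul]

/-- restriction to an event -/
def rest (E : ∀ k, (T.F k).Ω → Prop) (hE : 0 < ul (T.pr E)) : LF (T.rest E) ι d k N where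
  q := fun j => QS.rest E hE (X.q j)
  z := fun n => QS.rest E hE (X.z n)
  v := fun i j => QS.rest E hE (X.v i j)
  c := fun i n m => QS.rest E hE (X.c i n m)

theorem rest_a (E : ∀ k, (T.F k).Ω → Prop) (hE : 0 < ul (T.pr E)) (i : ι) :
    (X.rest E hE).a i = fun j => QS.rest E hE (X.a i j) := by
  funext j
  show QS.rest E hE (X.q j) - QS.rest E hE (X.q 0) * QS.rest E hE (X.v i j) = QS.rest E hE (X.q j - X.q 0 * X.v i j)
  rw [map_sub, map_mul]

/-- the frame -/
def frm (e : Fin (d + 1) → ι) : Matrix (Fin (d + 1)) (Fin (d + 1)) (QS T) := Matrix.of fun i j => X.v (e i) j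

theorem frm_pull {V : Sp} (r : Pj V T) {e : Fin (d + 1) → ι} (h : IsUnit (X.frm e).det) :
    IsUnit ((X.pull r).frm e).det := by
  have h2 := RingHom.map_det r.qs (X.frm e)
  have h3 : (X.pull r).frm e = r.qs.mapMatrix (X.frm e) := rfl
  rw [h3, ← h2]
  exact h.map r.qs

/-- hypotheses: `U` = information of all directions, `κ` = depth, `ρ` = deficit -/
structure Ok (U : T.L) (κ ρ : ℝ) : Prop where
  fam : ∃ (J : Type) (_ : Fintype J) (G : J → QS T), vd G 1 = U
  real : Rl X.q U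
  v0 : ∀ i, X.v i 0 = 1
  vU : ∀ i j, dg (X.v i j) 1 ≤ U
  time : ∀ i, Helper31.EC.h (dg (X.q 0) 1) (vd (X.a i) 1 ⊔ vd (fun n => X.c i n 0) 1 ⊔ U) = 1
  cF : ∀ i n (m : Fin k), dg (X.c i n m.succ) 1 ≤ vd (X.a i) 1 ⊔ U
  zc : ∀ i n, X.z n - pe (X.c i n) (X.q 0) ∈ Id T κ
  ur : UR T X.z (vd X.q 1) ρ κ
  zG : I (vd X.z 1) U (vd X.q 1) = 0
  pr : ∀ i j, i ≠ j → ∃ Ψ : Fin N → Fin k → Fin (2 * k + 1) → QS T, (∀ n m, vd (Ψ n m) 1 ≤ vd (X.a j) 1 ⊔ U) ∧
    ∀ n m, X.c i n m.succ - pe (Ψ n m) (X.q 0) ∈ Id T κ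

variable {X} {U : T.L} {κ ρ : ℝ}

theorem Ok.pull (h : X.Ok U κ ρ) (h1 : κ ≤ 1) {V : Sp} (r : Pj V T) : (X.pull r).Ok (r.map U) κ ρ where
  fam := by
    obtain ⟨J, hJ, G, hG⟩ := h.fam
    refine ⟨J, hJ, fun j => r.qs (G j), ?_⟩
    rw [r.qs_vd, hG]
  real := h.real.pull r
  v0 i := by
    show r.qs (X.v i 0) = 1
    rw [h.v0, map_one]
  vU i j := by
    show dg (r.qs (X.v i j)) 1 ≤ _
    rw [r.qs_dg]
    exact r.map_mono (h.vU i j)
  time i := by
    rw [X.pull_a r, r.qs_vd]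
    show Helper31.EC.h (dg (r.qs (X.q 0)) 1) (_ ⊔ vd (fun n => r.qs (X.c i n 0)) 1 ⊔ _) = 1
    rw [r.qs_vd, r.qs_dg, ← r.map_sup, ← r.map_sup, r.h_map]
    exact h.time i
  cF i n m := by
    rw [X.pull_a r, r.qs_vd]
    show dg (r.qs (X.c i n m.succ)) 1 ≤ _
    rw [r.qs_dg, ← r.map_sup]
    exact r.map_mono (h.cF i n m)
  zc i n := by
    have h2 := (r.qs_mem_Id h1).mpr (h.zc i n)
    rw [map_sub, pe_map] at h2
    exact h2
  ur := by
    have h2 := h.ur.pull r
    rw [← r.qs_vd] at h2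
    exact h2
  zG := by
    show I (vd (fun n => r.qs (X.z n)) 1) _ (vd (fun j => r.qs (X.q j)) 1) = 0
    rw [r.qs_vd, r.qs_vd, r.I_map]
    exact h.zG
  pr i j hij := by
    obtain ⟨Ψ, a1, a2⟩ := h.pr i j hij
    refine ⟨fun n m l => r.qs (Ψ n m l), fun n m => ?_, fun n m => ?_⟩
    · rw [X.pull_a r, r.qs_vd, r.qs_vd, ← r.map_sup]
      exact r.map_mono (a1 n m)
    · have b1 := (r.qs_mem_Id h1).mpr (a2 n m)
      rw [map_sub, pe_map] at b1
      exact b1

theorem rest_pe (E : ∀ k, (T.F k).Ω → Prop) (hE : 0 < ul (T.pr E)) {m : ℕ} (c : Fin (m + 1) → QS T) (x : QS T) :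
    QS.rest E hE (pe c x) = pe (fun l => QS.rest E hE (c l)) (QS.rest E hE x) := by
  unfold pe
  rw [map_sum]
  exact Finset.sum_congr rfl fun l _ => by rw [map_mul, map_pow]

theorem Ok.rest (h : X.Ok U κ ρ) (h1 : κ ≤ 1) (E : ∀ k, (T.F k).Ω → Prop) (hE : 0 < ul (T.pr E)) :
    (X.rest E hE).Ok (restL E hE U) κ ρ where
  fam := by
    obtain ⟨J, hJ, G, hG⟩ := h.fam
    refine ⟨J, hJ, fun j => QS.rest E hE (G j), ?_⟩
    rw [QS.rest_vd, hG]
  real := h.real.rest E hE
  v0 i := by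
    show QS.rest E hE (X.v i 0) = 1
    rw [h.v0, map_one]
  vU i j := by
    show dg (QS.rest E hE (X.v i j)) 1 ≤ _
    rw [QS.rest_dg]
    exact restL_mono E hE (h.vU i j)
  time i := by
    have h2 := Pool.Agent.Helper70.FW.real_rest E hE (h.time i)
    rw [restL_sup, restL_sup, ← QS.rest_vd, ← QS.rest_vd] at h2
    rw [X.rest_a E hE]
    exact h2
  cF i n m := by
    rw [X.rest_a E hE, QS.rest_vd]
    show dg (QS.rest E hE (X.c i n m.succ)) 1 ≤ _
    rw [QS.rest_dg, ← restL_sup]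
    exact restL_mono E hE (h.cF i n m)
  zc i n := by
    have h2 := rest_mem_Id E hE h1 (h.zc i n)
    rw [map_sub, rest_pe] at h2
    exact h2
  ur := by
    have h2 := h.ur.rest h1 E hE
    rw [← QS.rest_vd] at h2
    exact h2
  zG := by
    show I (vd (fun n => QS.rest E hE (X.z n)) 1) _ (vd (fun j => QS.rest E hE (X.q j)) 1) = 0
    rw [QS.rest_vd, QS.rest_vd]
    exact I_rest_zero E hE h.zG
  pr i j hij := by
    obtain ⟨Ψ, a1, a2⟩ := h.pr i j hij
    refine ⟨fun n m l => QS.rest E hE (Ψ n m l), fun n m => ?_, fun n m => ?_⟩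
    · rw [X.rest_a E hE, QS.rest_vd, QS.rest_vd, ← restL_sup]
      exact restL_mono E hE (a1 n m)
    · have b1 := rest_mem_Id E hE h1 (a2 n m)
      rw [map_sub, rest_pe] at b1
      exact b1

/-- SLOPES ARE POLYNOMIALS modulo `Id κ`: one coefficient of one line on an extension -/
def Sl (X : LF T ι d k N) (U : T.L) (κ : ℝ) (n : Fin N) (i : ι) (m : Fin k) (V : Sp) (r : Pj V T) : Prop :=
  ∃ P : MvPolynomial (Fin (d + 1)) (QS V), P ∈ PK (r.map U) ∧ P.totalDegree ≤ 2 * k * (d + 1) ∧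
    r.qs (X.c i n m.succ) - MvPolynomial.eval (fun j => r.qs (X.q j)) P ∈ Id V κ

theorem Sl.up (h1 : κ ≤ 1) {n : Fin N} {i : ι} {m : Fin k} {V V' : Sp} {r : Pj V T} (t : Pj V' V)
    (h : X.Sl U κ n i m V r) : X.Sl U κ n i m V' (t.comp r) := by
  obtain ⟨P, a1, a2, a3⟩ := h
  refine ⟨MvPolynomial.map t.qs P, ?_, (totalDegree_map_le _ _).trans a2, ?_⟩
  · rw [Pj.comp_map]
    exact map_PK t a1
  · have b1 := (t.qs_mem_Id h1).mpr a3
    rw [map_sub, qs_eval] at b1
    have e1 : (fun j => (t.comp r).qs (X.q j)) = fun j => t.qs (r.qs (X.q j)) :=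
      funext fun j => Pj.comp_qs _ _ _
    rw [Pj.comp_qs, e1]
    exact b1

/-- one slope -/
theorem Ok.slope (h : X.Ok U κ ρ) (h0 : 0 ≤ κ) (h1 : κ ≤ 1) (e : Fin (d + 1) → ι) (hdet : IsUnit (X.frm e).det)
    (n : Fin N) (i : ι) (m : Fin k) : ∃ (V : Sp) (r : Pj V T), X.Sl U κ n i m V r := by
  obtain ⟨J, hJ, G, hG⟩ := h.fam
  have hcl : ∀ j, vd (X.a j) 1 ≤ vd X.q 1 ⊔ U := by
    intro j
    rw [vd_le]
    intro l
    apply (Kn T 1 le_rfl _).sub_mem
    · exact (dg_le_vd X.q 1 l).trans le_sup_left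
    · apply (Kn T 1 le_rfl _).mul_mem
      · exact (dg_le_vd X.q 1 0).trans le_sup_left
      · exact (h.vU j l).trans le_sup_right
  obtain ⟨V, r, P, b1, b2, b3⟩ := poly_slopeT h0 h1 (K := 2 * k) G (X.frm e)
    (fun i j => by
      rw [hG]
      exact h.vU (e i) j)
    (fun i => h.v0 (e i)) hdet X.q
    (by
      rw [hG]
      exact h.real)
    (X.c i n m.succ)
    (by
      rw [hG]
      exact (h.cF i n m).trans (sup_le (hcl i) le_sup_right))
    (fun j => by
      rw [hG]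
      show ∃ Φ : Fin (2 * k + 1) → QS T, X.c i n m.succ - pe Φ (X.q 0) ∈ Id T κ ∧ vd Φ 1 ≤ vd (X.a (e j)) 1 ⊔ U
      by_cases hij : i = e j
      · refine ⟨fun n' => if n' = 0 then X.c i n m.succ else 0, ?_, ?_⟩
        · unfold pe
          rw [Finset.sum_eq_single 0]
          · beta_reduce
            rw [if_pos rfl, Fin.val_zero, pow_zero, mul_one, sub_self]
            exact Ideal.zero_mem _
          · intro n _ hn
            beta_reduce
            rw [if_neg hn, zero_mul]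
          · intro h
            exact absurd (Finset.mem_univ _) h
        · rw [vd_le]
          intro n'
          show dg (if n' = 0 then X.c i n m.succ else 0) 1 ≤ _
          by_cases hn : n' = 0
          · rw [if_pos hn, ← hij]
            exact h.cF i n m
          · rw [if_neg hn]
            exact (Kn T 1 le_rfl _).zero_mem
      · obtain ⟨Ψ, a1, a2⟩ := h.pr i (e j) hij
        exact ⟨Ψ n m, a2 n m, a1 n m⟩)
  rw [hG] at b1
  exact ⟨V, r, P, b1, b2, b3⟩

/-- all slopes -/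
theorem Ok.slopes [Fintype ι] (h : X.Ok U κ ρ) (h0 : 0 ≤ κ) (h1 : κ ≤ 1) (e : Fin (d + 1) → ι)
    (hdet : IsUnit (X.frm e).det) : ∃ (V : Sp) (r : Pj V T), ∀ n i m, X.Sl U κ n i m V r := by
  classical
  obtain ⟨V, r, h2⟩ := ext_all (Finset.univ : Finset (Fin N × (ι × Fin k)))
    (fun a V' t => X.Sl U κ a.1 a.2.1 a.2.2 V' t)
    (fun a V' t V'' t' h => h.up h1 t')
    (fun a V' t => by
      obtain ⟨V'', t', P, b1, b2, b3⟩ := (h.pull h1 t).slope h0 h1 e (X.frm_pull t hdet) a.1 a.2.1 a.2.2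
      refine ⟨V'', t', P, ?_, b2, ?_⟩
      · rw [Pj.comp_map]
        exact b1
      · have e1 : (fun j => (t'.comp t).qs (X.q j)) = fun j => t'.qs (t.qs (X.q j)) :=
          funext fun j => Pj.comp_qs _ _ _
        rw [Pj.comp_qs, e1]
        exact b3)
  exact ⟨V, r, fun n i m => h2 (n, (i, m)) (Finset.mem_univ _)⟩

end LF

end

end Pool.Agent.Helper45.UC
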