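import Pool.Agent.Helper45.UC.Lf

/-! Exact entropy calculus: potentials of curved lines through one point exist at depth `κ ρ` (slopes at depth `κ`,
loops of helper38), and are unique. -/

set_option autoImplicit false

namespace Pool.Agent.Helper45.UC

open Filter Topology Pool.Agent.Helper69.RK
open Pool.Agent.Helper31.EC QS Sp Pool.Agent.Helper38.NS Pool.Agent.Helper50.VR
open Pool.Agent.Helper50.VM (Hp eval_Hp map_Hp Hp_mem Hp_deg lift_poly degree_of_support pot_unique)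

noncomputable section

namespace LF

variable {T : Sp} {ι : Type} {d k N : ℕ} {X : LF T ι d k N} {U : T.L} {κ ρ : ℝ}

/-- POTENTIAL at depth `κ`: a polynomial with coefficients known to the directions whose increments from height zero
along every line are the increments of the top coordinate -/
structure Pt (X : LF T ι d k N) (U : T.L) (κ : ℝ) (K : ℕ) (n : Fin N)
    (f : MvPolynomial (Fin (d + 1)) (QS T)) : Prop where
  mem : f ∈ PK U
  f0 : f.coeff 0 = 0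
  deg : f.totalDegree ≤ K
  ev : ∀ i, X.z n - X.c i n 0 - (MvPolynomial.eval X.q f - MvPolynomial.eval (X.a i) f) ∈ Id T κ

theorem Pt.pull (h1 : κ ≤ 1) {K : ℕ} {n : Fin N} {f : MvPolynomial (Fin (d + 1)) (QS T)} (h : X.Pt U κ K n f)
    {V : Sp} (r : Pj V T) : (X.pull r).Pt (r.map U) κ K n (MvPolynomial.map r.qs f) where
  mem := map_PK r h.mem
  f0 := by rw [MvPolynomial.coeff_map, h.f0, map_zero]
  deg := (totalDegree_map_le _ _).trans h.deg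
  ev i := by
    have h2 := (r.qs_mem_Id h1).mpr (h.ev i)
    have h3 : ∀ x y z w : QS T, r.qs (x - y - (z - w)) = r.qs x - r.qs y - (r.qs z - r.qs w) := fun x y z w => by
      rw [map_sub, map_sub, map_sub]
    rw [h3, qs_eval, qs_eval] at h2
    rw [X.pull_a r]
    exact h2

/-- POTENTIALS from slopes -/
theorem Ok.pot [Fintype ι] (h : X.Ok U κ ρ) (κ0 : 0 < κ) (κ1 : κ ≤ 1) (ρ0 : 0 < ρ) (ρ1 : ρ ≤ 1)
    (e : Fin (d + 1) → ι) (hdet : IsUnit (X.frm e).det)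
    (P : Fin N → ι → Fin k → MvPolynomial (Fin (d + 1)) (QS T)) (hPm : ∀ n i m, P n i m ∈ PK U)
    (hPd : ∀ n i m, (P n i m).totalDegree ≤ 2 * k * (d + 1))
    (hPe : ∀ n i m, X.c i n m.succ - MvPolynomial.eval X.q (P n i m) ∈ Id T κ) (n : Fin N) :
    ∃ f : MvPolynomial (Fin (d + 1)) (QS T), X.Pt U (κ * ρ) (2 * k * (d + 1) + k) n f := by
  classical
  obtain ⟨J, hJ, G, hG⟩ := h.fam
  subst hG
  -- the increments
  have hzP : ∀ i n, X.z n - X.c i n 0 - MvPolynomial.eval X.q (Hp (P n i)) ∈ Id T κ := by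
    intro i n
    have h1 := h.zc i n
    have h2 : pe (X.c i n) (X.q 0) = X.c i n 0 + ∑ m : Fin k, X.q 0 ^ ((m : ℕ) + 1) * X.c i n m.succ := by
      unfold pe
      rw [Fin.sum_univ_succ]
      simp only [Fin.val_zero, pow_zero, mul_one, Fin.val_succ]
      congr 1
      exact Finset.sum_congr rfl fun j _ => mul_comm _ _
    have h3 : ∑ m : Fin k, X.q 0 ^ ((m : ℕ) + 1) * X.c i n m.succ - MvPolynomial.eval X.q (Hp (P n i)) ∈ Id T κ := by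
      rw [eval_Hp, ← Finset.sum_sub_distrib]
      apply (Id T κ).sum_mem
      intro m _
      rw [← mul_sub]
      exact (Id T κ).mul_mem_left _ (hPe n i m)
    rw [h2] at h1
    have h4 := (Id T κ).add_mem h1 h3
    refine Eq.subst (motive := fun x => x ∈ Id T κ) ?_ h4
    ring
  -- lines in the order of `Fin`
  obtain ⟨M, hM⟩ : ∃ M, M = Fintype.card ι := ⟨_, rfl⟩
  obtain ⟨τ⟩ : Nonempty (Fin M ≃ ι) := ⟨(Fintype.equivFinOfCardEq hM.symm).symm⟩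
  obtain ⟨Lf, hLf⟩ : ∃ Lf : Fin (d + 1 + M) → ι, Lf = Fin.append e τ := ⟨_, rfl⟩
  have hN : d + 1 ≤ d + 1 + M := Nat.le_add_right _ _
  have hLe : ∀ i : Fin (d + 1), Lf (Fin.castLE hN i) = e i := by
    intro i
    rw [hLf]
    have : Fin.castLE hN i = Fin.castAdd M i := rfl
    rw [this, Fin.append_left]
  have hLs : ∀ i : ι, ∃ l, Lf l = i := by
    intro i
    refine ⟨Fin.natAdd (d + 1) (τ.symm i), ?_⟩
    rw [hLf, Fin.append_right, Equiv.apply_symm_apply]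
  have hdetL : IsUnit (Matrix.det (Matrix.of fun i j : Fin (d + 1) =>
      (fun l a => X.v (Lf l) a) (Fin.castLE hN i) j)) := by
    have h1 : (Matrix.of fun i j : Fin (d + 1) => (fun l a => X.v (Lf l) a) (Fin.castLE hN i) j) = X.frm e := by
      ext i j
      show X.v (Lf (Fin.castLE hN i)) j = X.v (e i) j
      rw [hLe]
    rw [h1]
    exact hdet
  obtain ⟨H, hH'⟩ : ∃ H : Fin N → ι → MvPolynomial (Fin (d + 1)) (QS (dp T κ κ0)),
    ∀ n i, H n i = MvPolynomial.map (dQ κ κ0 κ1) (Hp (P n i)) := ⟨_, fun _ _ => rfl⟩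
  have hHm : ∀ n i, H n i ∈ PK (dL κ κ0 (vd G 1)) := by
    intro n i
    rw [hH']
    exact map_dQ_PK (Hp_mem _ (fun j => hPm n i j)) κ κ0 κ1
  have hdH : ∀ n i, (H n i).totalDegree ≤ 2 * k * (d + 1) + k := by
    intro n i
    rw [hH']
    exact (totalDegree_map_dQ _ κ κ0 κ1).trans (Hp_deg _ (fun j => hPd n i j))
  have hNR : NRu (dp T κ κ0) (fun n => dQ κ κ0 κ1 (X.z n)) (dL κ κ0 (vd X.q 1)) ρ :=
    (h.ur.toUQ κ κ0 κ1 le_rfl).nru ρ1
  have hzG : I (vd X.z κ) (vd G 1) (vd X.q 1) = 0 :=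
    I_zero_mono h.zG ((vd_mono X.z κ1).trans le_sup_left) le_sup_left
  obtain ⟨f', hf', hf0, hpot⟩ := loopR G (X.q 0) X.q X.z κ0 κ1 (fun l a => X.v (Lf l) a)
    (fun l n => X.c (Lf l) n 0) (fun n l => H n (Lf l)) hN h.real (fun l a => h.vU _ a)
    (fun n l => hHm n _) hdetL (fun l => h.time (Lf l))
    (fun l n => by
      have h1 := hzP (Lf l) n
      rw [← dQ_eq_zero κ κ0 κ1, map_sub, sub_eq_zero, map_eval'] at h1
      rw [hH']
      exact h1)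
    ρ0 ρ1 hNR hzG n
  have hpot' : ∀ i, PotH f' (fun a => dQ ρ ρ0 ρ1 (dQ κ κ0 κ1 (X.v i a)))
      (MvPolynomial.map (dQ ρ ρ0 ρ1) (H n i)) := by
    intro i
    obtain ⟨l, hl⟩ := hLs i
    have := hpot l
    rw [hl] at this
    exact this
  have hqRR := rl_dp (rl_dp h.real κ κ0 κ1) ρ ρ0 ρ1
  have hdd : IsUnit (Matrix.det (Matrix.of fun i j : Fin (d + 1) =>
      dQ ρ ρ0 ρ1 (dQ κ κ0 κ1 (X.frm e i j)))) := by
    have h1 := (hdet.map (dQ κ κ0 κ1)).map (dQ ρ ρ0 ρ1)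
    rw [RingHom.map_det, RingHom.map_det] at h1
    exact h1
  obtain ⟨-, hdeg⟩ := potH_known (A := dL ρ ρ0 (dL κ κ0 (vd G 1))) (B := dL ρ ρ0 (dL κ κ0 (vd G 1))) le_rfl f' hf' hf0
    (Matrix.of fun i j : Fin (d + 1) => dQ ρ ρ0 ρ1 (dQ κ κ0 κ1 (X.frm e i j)))
    (fun i j => dQ_le (dQ_le (h.vU (e i) j) κ κ0 κ1) ρ ρ0 ρ1) hdd
    (fun i => MvPolynomial.map (dQ ρ ρ0 ρ1) (H n (e i))) (fun i => map_dQ_PK (hHm n _) ρ ρ0 ρ1)
    (2 * k * (d + 1) + k) (fun i => (totalDegree_map_dQ _ ρ ρ0 ρ1).trans (hdH n _)) (fun i => hpot' (e i))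
    (fun j => dQ ρ ρ0 ρ1 (dQ κ κ0 κ1 (X.q j))) hqRR
  -- the lift
  obtain ⟨f1, hf1, hf1m, hf1s⟩ := lift_poly ρ1 f' hf'
  obtain ⟨f, hf, hfm, hfs⟩ := lift_poly κ1 f1 hf1m
  have hf2 : f' = MvPolynomial.map (dQ ρ ρ0 ρ1) (MvPolynomial.map (dQ κ κ0 κ1) f) := by rw [hf, hf1]
  have hf00 : f.coeff 0 = 0 := by
    rw [← MvPolynomial.notMem_support_iff]
    intro hc
    have h1 := hf1s (hfs hc)
    rw [MvPolynomial.mem_support_iff] at h1
    exact h1 hf0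
  refine ⟨f, ⟨hfm, hf00, ((degree_of_support hfs).trans (degree_of_support hf1s)).trans hdeg, ?_⟩⟩
  intro i
  have h0 : ∀ a b c : QS T, dQ ρ ρ0 ρ1 (dQ κ κ0 κ1 (a - (b - c))) = dQ ρ ρ0 ρ1 (dQ κ κ0 κ1 a) -
      (dQ ρ ρ0 ρ1 (dQ κ κ0 κ1 b) - dQ ρ ρ0 ρ1 (dQ κ κ0 κ1 c)) := fun a b c => by
    rw [map_sub, map_sub, map_sub, map_sub]
  rw [← dQ_mem κ κ0 κ1 ρ1, ← dQ_eq_zero ρ ρ0 ρ1, h0, map_eval' (dQ κ κ0 κ1), map_eval' (dQ κ κ0 κ1),
    map_eval' (dQ ρ ρ0 ρ1), map_eval' (dQ ρ ρ0 ρ1), ← hf2, sub_eq_zero]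
  have h1 := hpot' i (fun j => dQ ρ ρ0 ρ1 (dQ κ κ0 κ1 (X.a i j))) (dQ ρ ρ0 ρ1 (dQ κ κ0 κ1 (X.q 0)))
  have h2 : (fun j => dQ ρ ρ0 ρ1 (dQ κ κ0 κ1 (X.a i j)) + dQ ρ ρ0 ρ1 (dQ κ κ0 κ1 (X.q 0)) *
      dQ ρ ρ0 ρ1 (dQ κ κ0 κ1 (X.v i j))) = fun j => dQ ρ ρ0 ρ1 (dQ κ κ0 κ1 (X.q j)) := by
    funext j
    rw [← map_mul, ← map_mul, ← map_add, ← map_add]
    congr 2
    unfold LF.a
    ring
  have hav0 : X.a i 0 = 0 := by
    unfold LF.a
    rw [h.v0, mul_one, sub_self]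
  rw [h2] at h1
  rw [h1, hH', map_Hp, map_Hp, eval_Hp, eval_Hp]
  have h3 : ∑ j : Fin k, dQ ρ ρ0 ρ1 (dQ κ κ0 κ1 (X.a i 0)) ^ ((j : ℕ) + 1) *
      MvPolynomial.eval (fun j => dQ ρ ρ0 ρ1 (dQ κ κ0 κ1 (X.a i j)))
        (MvPolynomial.map (dQ ρ ρ0 ρ1) (MvPolynomial.map (dQ κ κ0 κ1) (P n i j))) = 0 := by
    apply Finset.sum_eq_zero
    intro j _
    rw [hav0, map_zero, map_zero, zero_pow (Nat.succ_ne_zero _), zero_mul]
  rw [h3, sub_zero]
  have h4 := hzP i n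
  rw [← dQ_eq_zero κ κ0 κ1, map_sub, sub_eq_zero, map_eval', map_Hp, eval_Hp] at h4
  have h5 := congrArg (dQ ρ ρ0 ρ1) h4
  rw [map_sum] at h5
  rw [h5]
  apply Finset.sum_congr rfl
  intro j _
  rw [map_mul, map_pow, map_eval' (dQ ρ ρ0 ρ1)]

/-- POTENTIALS EXIST on an extension -/
theorem Ok.exists_pt [Fintype ι] (h : X.Ok U κ ρ) (κ0 : 0 < κ) (κ1 : κ ≤ 1) (ρ0 : 0 < ρ) (ρ1 : ρ ≤ 1)
    (e : Fin (d + 1) → ι) (hdet : IsUnit (X.frm e).det) : ∃ (V : Sp) (r : Pj V T), ∀ n,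
      ∃ f : MvPolynomial (Fin (d + 1)) (QS V), (X.pull r).Pt (r.map U) (κ * ρ) (2 * k * (d + 1) + k) n f := by
  obtain ⟨V, r, h2⟩ := h.slopes κ0.le κ1 e hdet
  choose P hPm hPd hPe using h2
  exact ⟨V, r, (h.pull κ1 r).pot κ0 κ1 ρ0 ρ1 e (X.frm_pull r hdet) P hPm hPd hPe⟩

/-- UNIQUENESS: potentials of a family of lines and of a bigger family -/
theorem pt_unique {ι' : Type} {X' : LF T ι' d k N} {U' : T.L} (hU : U ≤ U') (hX : X.Ok U κ ρ) (hX' : X'.Ok U' κ ρ)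
    (g : ι → ι') (hq : X'.q = X.q) (hz : X'.z = X.z) (hv : ∀ i, X'.v (g i) = X.v i) (hc : ∀ i, X'.c (g i) = X.c i)
    (e : Fin (d + 1) → ι) (hdet : IsUnit (X.frm e).det) {κ' : ℝ} (κ0 : 0 < κ') (κ1 : κ' ≤ 1) {K K' : ℕ} {n : Fin N}
    {f f' : MvPolynomial (Fin (d + 1)) (QS T)} (h : X.Pt U κ' K n f) (h' : X'.Pt U' κ' K' n f')
    (m : Fin (d + 1) →₀ ℕ) : f.coeff m - f'.coeff m ∈ Id T κ' := by
  have hqR : Rl X.q U' := by
    rw [← hq]
    exact hX'.real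
  have ha : ∀ i, X'.a (g i) = X.a i := by
    intro i
    funext j
    unfold LF.a
    rw [hq, hv]
  have key := pot_unique κ0 κ1 X.q hqR (fun i j => X.v (e i) j) (fun i => hX.v0 _)
    (fun i j => (hX.vU (e i) j).trans hU) hdet (f - f') ((PK _).sub_mem (PK_mono hU h.mem) h'.mem)
    (by rw [MvPolynomial.coeff_sub, h.f0, h'.f0, sub_zero])
    (fun i => by
      have h1 := h.ev (e i)
      have h2 := h'.ev (g (e i))
      rw [ha, hq, hz, hc] at h2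
      have e2 : (fun j => X.q j - X.q 0 * X.v (e i) j) = X.a (e i) := rfl
      rw [e2, map_sub, map_sub]
      have h3 := (Id T κ').sub_mem h2 h1
      refine Eq.subst (motive := fun x => x ∈ Id T κ') ?_ h3
      ring)
  have h1 := congrArg (MvPolynomial.coeff m) key
  rw [MvPolynomial.coeff_map, MvPolynomial.coeff_zero, dQ_eq_zero, MvPolynomial.coeff_sub] at h1
  exact h1

end LF

end

end Pool.Agent.Helper45.UC
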