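import Pool.Agent.Helper45.UC.Pte

/-! Exact entropy calculus: the lines of a star of several types (equation of the top coordinates modulo `Id r`) as
functions on one space. -/

set_option autoImplicit false

namespace Pool.Agent.Helper45.UC

open Filter Topology Pool.Agent.Helper69.RK
open Pool.Agent.Helper31.EC QS Sp Pool.Agent.Helper38.NS Pool.Agent.Helper99.EC Pool.Agent.Helper96.FLT
open Pool.Agent.Helper50.VR (Po Tp UR H1R h1R)
open Pool.Agent.Helper50.VC (VB)
open Pool.Agent.Helper50.VM (drs vd_drs mat_le)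

noncomputable section

variable {S : Sp} {d k N : ℕ} {P : Po S d N} {r : ℝ} {ι : Type}

theorem tp_q {s : VB S d k N} (hs : Tp P r s) : s.q = P.q := by
  unfold VB.q Po.q
  rw [hs.t, hs.y]

/-- the foot of the base line -/
theorem tp_av {s : VB S d k N} (hs : Tp P r s) (j : Fin (d + 1)) : s.av j = P.q j - P.q 0 * s.v j := by
  have h1 : P.q 0 = s.t := by
    rw [hs.t]
    rfl
  rw [h1, ← tp_q hs, s.q_eq]
  ring

theorem vd_av (s : VB S d k N) : vd s.av 1 ≤ vd s.a 1 := by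
  rw [vd_le]
  intro j
  induction j using Fin.cases with
  | zero => exact (Kn S 1 le_rfl _).zero_mem
  | succ j => exact dg_le_vd s.a 1 j

theorem vd_av' (s : VB S d k N) : vd s.a 1 ≤ vd s.av 1 := by
  rw [vd_le]
  intro j
  exact dg_le_vd s.av 1 j.succ

section star

variable [Fintype ι] {σ : ι → VB S d k N}

theorem drs_free (hs : ∀ i, Tp P r (σ i)) {W : Sp} {p : ι → Pj W S} (hp : IsStar P.fQ p) (i0 : ι) :
    I (vd (drs σ p) 1) ((p i0).map (vd P.fQ 1)) ⊥ = 0 := by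
  rw [vd_drs σ p]
  apply hp.I_free i0
  intro i
  rw [P.vd_fQ]
  exact (hs i).s1

theorem vd_q_le : vd P.q 1 ≤ vd P.fQ 1 := by
  rw [vd_le]
  intro j
  exact dg_le_vd P.fQ 1 (Sum.inl j)

theorem vd_z_le : vd P.z 1 ≤ vd P.fQ 1 := by
  rw [vd_le]
  intro j
  exact dg_le_vd P.fQ 1 (Sum.inr j)

/-- the point is real over the directions -/
theorem q_real (hs : ∀ i, Tp P r (σ i)) (hq : Rl P.q ⊥) {W : Sp} {p : ι → Pj W S} (hp : IsStar P.fQ p) (i0 : ι) :
    Rl (fun j => (p i0).qs (P.q j)) (vd (drs σ p) 1) := by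
  have h1 : I (vd (fun j => (p i0).qs (P.q j)) 1) (vd (drs σ p) 1) ⊥ = 0 := by
    rw [I_comm]
    refine I_zero_mono (drs_free hs hp i0) le_sup_left ?_
    refine le_trans ?_ le_sup_left
    rw [(p i0).qs_vd]
    exact (p i0).map_mono vd_q_le
  have h2 := I_zero_iff_h.mp h1
  have h3 := hq.pull (p i0)
  rw [(p i0).map_bot] at h3
  unfold Rl at h3 ⊢
  rw [sup_bot_eq] at h2
  rw [h2]
  exact h3

/-- the height is free over a line and all directions of the star -/
theorem ht_line (hs : ∀ i, Tp P r (σ i)) {W : Sp} {p : ι → Pj W S} (hp : IsStar P.fQ p) (l : ι) :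
    h ((p l).map P.iT) ((p l).map ((σ l).fv.iL ⊔ (σ l).fv.iB) ⊔ vd (drs σ p) 1) = 1 := by
  classical
  obtain ⟨U', hU'⟩ : ∃ U', U' = (Finset.univ.erase l).sup fun i => (p i).map (σ i).fv.iX := ⟨_, rfl⟩
  have h1 := hp.I_free_line l (s := Finset.univ.erase l) (Finset.notMem_erase l _) (fun i => (σ i).fv.iX)
    (fun i => by rw [P.vd_fQ]; exact (hs i).s1) ((σ l).fv.iL ⊔ (σ l).fv.iB)
  rw [P.vd_fQ, ← hU'] at h1
  have h2 : I U' ((p l).map P.iT) ((p l).map ((σ l).fv.iL ⊔ (σ l).fv.iB)) = 0 := by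
    refine ind_of h1 bot_le (le_sup_right.trans le_sup_left) le_sup_left ?_
    refine le_trans ?_ le_sup_left
    refine le_trans ?_ le_sup_left
    apply (p l).map_mono
    unfold Po.iP
    exact le_sup_left
  have ht : h P.iT ((σ l).fv.iL ⊔ (σ l).fv.iB) = 1 := (hs l).ht
  rw [I_zero_iff_h', Pj.h_map, ht] at h2
  apply le_antisymm
  · refine (h_anti (le_sup_left : (p l).map ((σ l).fv.iL ⊔ (σ l).fv.iB) ≤ _)).trans ?_
    rw [Pj.h_map, ht]
  · refine h2.ge.trans (h_anti ?_)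
    apply sup_le (le_sup_right)
    rw [vd_drs]
    apply Finset.sup_le
    intro i _
    by_cases hi : i = l
    · rw [hi]
      refine le_trans ?_ le_sup_right
      apply (p l).map_mono
      have h3 : (σ l).fv.iX ≤ (σ l).fv.iL := le_sup_right
      exact h3.trans le_sup_left
    · refine le_trans ?_ le_sup_left
      rw [hU']
      exact Finset.le_sup (f := fun i => (p i).map (σ i).fv.iX) (Finset.mem_erase.mpr ⟨hi, Finset.mem_univ _⟩)

omit [Fintype ι] in
/-- the coefficients of one line along another one -/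
def Pr (σ : ι → VB S d k N) (κ : ℝ) {V : Sp} (p : ι → Pj V S) (i j : ι) : Prop :=
  ∃ Ψ : Fin N → Fin k → Fin (2 * k + 1) → QS V,
    (∀ n m, vd (Ψ n m) 1 ≤ (p j).map (σ j).fv.iL ⊔ (p i).map (σ i).fv.iX) ∧
    ∀ n m, (p i).qs ((σ i).c n m.succ) - pe (Ψ n m) ((p i).qs (σ i).t) ∈ Id V κ

omit [Fintype ι] in
theorem Pr.up {κ : ℝ} (hκ : κ ≤ 1) {V V' : Sp} {p : ι → Pj V S} {i j : ι} (t : Pj V' V) (h : Pr σ κ p i j) :
    Pr σ κ (fun i => t.comp (p i)) i j := by
  obtain ⟨Ψ, a1, a2⟩ := h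
  refine ⟨fun n m l => t.qs (Ψ n m l), fun n m => ?_, fun n m => ?_⟩
  · rw [t.qs_vd, Pj.comp_map, Pj.comp_map, ← t.map_sup]
    exact t.map_mono (a1 n m)
  · have b1 := (t.qs_mem_Id hκ).mpr (a2 n m)
    rw [map_sub, pe_map] at b1
    rw [Pj.comp_qs, Pj.comp_qs]
    exact b1

/-- two lines of a star -/
def star2 [DecidableEq ι] {W : Sp} {p : ι → Pj W S} (hp : IsStar P.fQ p) {i j : ι} (hij : i ≠ j) : P.Star where
  D := W
  p1 := p i
  p2 := p j
  cy l := hp.com i j (Sum.inl l.succ)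
  cz n := hp.com i j (Sum.inr n)
  ct := hp.com i j (Sum.inl 0)
  ci x y := by
    have h1 := hp.I_sup (s := {i}) (t := {j}) (by simpa using hij) i (fun l => if l = i then x else y)
    rw [Finset.sup_singleton, Finset.sup_singleton, if_pos rfl, if_neg hij.symm, P.vd_fQ] at h1
    exact h1

theorem exists_pr [DecidableEq ι] (hs : ∀ i, Tp P r (σ i)) {κ : ℝ} {W : Sp} {p : ι → Pj W S} (hp : IsStar P.fQ p)
    {i j : ι} (hij : i ≠ j) (hH : H1R P (σ i) (σ j) κ) :
    ∃ (V : Sp) (t : Pj V W), Pr σ κ (fun i => t.comp (p i)) i j := by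
  obtain ⟨V, t, Ψ, a1, a2⟩ := hH (star2 hp hij)
  refine ⟨V, t, Ψ, fun n m => ?_, fun n m => ?_⟩
  · have h3 := a1 n m
    rw [t.map_sup] at h3
    rw [Pj.comp_map, Pj.comp_map]
    exact h3
  · have h3 := a2 n m
    rw [(hs i).t, Pj.comp_qs, Pj.comp_qs]
    exact h3

end star

/-- the lines of a star as functions -/
def ofStar (P : Po S d N) (σ : ι → VB S d k N) {W : Sp} (p : ι → Pj W S) (p0 : Pj W S) : LF W ι d k N where
  q := fun j => p0.qs (P.q j)
  z := fun n => p0.qs (P.z n)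
  v := fun i j => (p i).qs ((σ i).v j)
  c := fun i n m => (p i).qs ((σ i).c n m)

theorem ofStar_a {σ : ι → VB S d k N} (hs : ∀ i, Tp P r (σ i)) {W : Sp} {p : ι → Pj W S} {p0 : Pj W S}
    (h0 : ∀ i a, (p i).qs (P.fQ a) = p0.qs (P.fQ a)) (i : ι) :
    (ofStar P σ p p0).a i = fun j => (p i).qs ((σ i).av j) := by
  funext j
  show p0.qs (P.q j) - p0.qs (P.q 0) * (p i).qs ((σ i).v j) = _
  have h1 : ∀ j, p0.qs (P.q j) = (p i).qs (P.q j) := fun j => (h0 i (Sum.inl j)).symm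
  rw [h1, h1, tp_av (hs i), map_sub, map_mul]

theorem ofStar_pull {σ : ι → VB S d k N} {W V : Sp} (p : ι → Pj W S) (p0 : Pj W S) (t : Pj V W) :
    (ofStar P σ p p0).pull t = ofStar P σ (fun i => t.comp (p i)) (t.comp p0) := by
  unfold ofStar LF.pull
  simp only [Pj.comp_qs]

/-- the hypotheses hold for stars -/
theorem ok_star [Fintype ι] {σ : ι → VB S d k N} (hs : ∀ i, Tp P r (σ i)) {κ ρ : ℝ} (hκ : κ ≤ r) (r1 : r ≤ 1)
    (hq : Rl P.q ⊥) (hu : UR S P.z (P.iT ⊔ P.iY) ρ r) {W : Sp} {p : ι → Pj W S} (hp : IsStar P.fQ p) (p0 : Pj W S)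
    (h0 : ∀ i a, (p i).qs (P.fQ a) = p0.qs (P.fQ a)) (i0 : ι) (hpr : ∀ i j, i ≠ j → Pr σ κ p i j) :
    (ofStar P σ p p0).Ok (vd (drs σ p) 1) κ ρ where
  fam := ⟨ι × Fin d, inferInstance, drs σ p, rfl⟩
  real := by
    have h1 := q_real hs hq hp i0
    have h2 : (fun j => (p i0).qs (P.q j)) = fun j => p0.qs (P.q j) := funext fun j => h0 i0 (Sum.inl j)
    rw [h2] at h1
    exact h1
  v0 i := by
    show (p i).qs 1 = 1
    exact map_one _
  vU i j := mat_le σ p i j
  time i := by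
    apply le_antisymm (h_dg_le_one _ _)
    have h1 := ht_line hs hp i
    have h2 : dg ((ofStar P σ p p0).q 0) 1 = (p i).map P.iT := by
      have h3 : (ofStar P σ p p0).q 0 = (p i).qs (P.q 0) := (h0 i (Sum.inl 0)).symm
      rw [h3, (p i).qs_dg]
      rfl
    rw [h2]
    refine h1.ge.trans (h_anti ?_)
    apply sup_le_sup_right
    rw [ofStar_a hs h0, (p i).qs_vd]
    have h4 : vd (fun n => (ofStar P σ p p0).c i n 0) 1 = (p i).map (σ i).fv.iB := (p i).qs_vd (fun n => (σ i).c n 0) 1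
    rw [h4, ← (p i).map_sup]
    apply (p i).map_mono
    exact sup_le_sup_right ((vd_av _).trans le_sup_left) _
  cF i n m := by
    show dg ((p i).qs ((σ i).c n m.succ)) 1 ≤ _
    rw [(p i).qs_dg, ofStar_a hs h0, (p i).qs_vd]
    refine ((p i).map_mono ((hs i).hF n m)).trans ?_
    unfold FV.iL
    rw [(p i).map_sup]
    refine sup_le_sup ((p i).map_mono (vd_av' _)) ?_
    rw [vd_drs]
    exact Finset.le_sup (f := fun i => (p i).map (σ i).fv.iX) (Finset.mem_univ i)
  zc i n := by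
    have h1 := ((p i).qs_mem_Id r1).mpr ((hs i).zi n)
    rw [map_sub, pe_map] at h1
    have h2 : (p i).qs (P.z n) = p0.qs (P.z n) := h0 i (Sum.inr n)
    have h3 : (p i).qs P.t = p0.qs (P.q 0) := h0 i (Sum.inl 0)
    rw [h2, h3] at h1
    exact Id_anti hκ h1
  ur := by
    have h1 := (hu.pull p0).anti hκ
    rw [← P.vd_q, ← p0.qs_vd] at h1
    exact h1
  zG := by
    have h1 := drs_free hs hp i0
    have e1 : vd (ofStar P σ p p0).z 1 ≤ (p i0).map (vd P.fQ 1) := by
      have h2 : (ofStar P σ p p0).z = fun n => (p i0).qs (P.z n) := funext fun n => (h0 i0 (Sum.inr n)).symm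
      rw [h2, (p i0).qs_vd]
      exact (p i0).map_mono vd_z_le
    have e2 : vd (ofStar P σ p p0).q 1 ≤ (p i0).map (vd P.fQ 1) := by
      have h2 : (ofStar P σ p p0).q = fun n => (p i0).qs (P.q n) := funext fun n => (h0 i0 (Sum.inl n)).symm
      rw [h2, (p i0).qs_vd]
      exact (p i0).map_mono vd_q_le
    exact ind_symm (ind_of h1 bot_le (by order) (by order) (by order))
  pr i j hij := by
    obtain ⟨Ψ, a1, a2⟩ := hpr i j hij
    refine ⟨Ψ, fun n m => ?_, fun n m => ?_⟩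
    · refine (a1 n m).trans ?_
      rw [ofStar_a hs h0, (p j).qs_vd]
      unfold FV.iL
      rw [(p j).map_sup, vd_drs]
      have b1 := Finset.le_sup (f := fun i => (p i).map (σ i).fv.iX) (Finset.mem_univ i)
      have b2 := Finset.le_sup (f := fun i => (p i).map (σ i).fv.iX) (Finset.mem_univ j)
      have b3 : (p j).map (vd (σ j).fv.a 1) ≤ (p j).map (vd (σ j).av 1) := (p j).map_mono (vd_av' _)
      have b4 : (p j).map (vd (σ j).fv.x 1) = (p j).map (σ j).fv.iX := rfl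
      beta_reduce at b1 b2
      rw [b4]
      order
    · have h3 : (p i).qs (σ i).t = (ofStar P σ p p0).q 0 := by
        rw [(hs i).t]
        exact h0 i (Sum.inl 0)
      have h4 := a2 n m
      rw [h3] at h4
      exact h4

end

end Pool.Agent.Helper45.UC
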